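import Mathlib
import Pool.Agent.W550.Corr.Basic

/-!
# The correspondences between `Z` and `A × Z` given by classes on `A`
-/

set_option autoImplicit false
set_option linter.unusedSectionVars false

open CategoryTheory AlgebraicGeometry

universe u v w

namespace Pool.Agent.W484.CH

open Pool.Agent.H914 Pool.Agent.H914.VarClass Pool.Agent.H914.VarClass.Obj Pool.Agent.W492.BB
  Pool.Agent.W550.Corr

variable {k : Type u} [Field k] {𝒱 : VarClass k}

section theory

variable {F : Type w} [Field F] {δ : ℤ} (T : TheoryData.{u, v, w} 𝒱 F) [hT : IsTheory T δ]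
  {A W X Y Z : 𝒱.Obj}

include hT in
lemma act_span (f : W ⟶ X) (g : W ⟶ Y) (w : T.A W) (x : T.A X) :
    T.act (T.push (Obj.lift f g) w) x = T.push g (w * T.pull f x) := by
  rw [T.act_apply, ← T.proj_right, ← T.push_comp, ← T.pull_comp, lift_fst, lift_snd]

include hT in
lemma comp_span (f : W ⟶ X) (g : W ⟶ Y) (w : T.A W) (Δ : T.A (Y.prod Z)) :
    T.comp (T.push (Obj.lift f g) w) Δ =
      T.push (prodMap f (𝟙 Z)) (T.pull (prodMap g (𝟙 Z)) Δ * T.pull (fst W Z) w) := by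
  have e1 : prodMap (Obj.lift f g) (𝟙 Z) ≫ t13 X Y Z = prodMap f (𝟙 Z) := by
    apply prod_ext <;> simp [t13]
  have e2 : prodMap (Obj.lift f g) (𝟙 Z) ≫ t23 X Y Z = prodMap g (𝟙 Z) := by
    apply prod_ext <;> simp [t23]
  rw [TheoryData.comp, T.base_fst, ← T.proj_left, ← T.push_comp, ← T.pull_comp, e1, e2]

/-- The correspondence `z ↦ b × z` from `Z` to `A × Z`. -/
noncomputable def extBy (Z : 𝒱.Obj) (b : T.A A) : T.A (Z.prod (A.prod Z)) :=
  T.push (Obj.lift (snd A Z) (𝟙 (A.prod Z))) (T.pull (fst A Z) b)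

/-- The correspondence `x ↦ q_* (p^* a · x)` from `A × Z` to `Z`. -/
noncomputable def pairBy (Z : 𝒱.Obj) (a : T.A A) : T.A ((A.prod Z).prod Z) :=
  T.push (Obj.lift (𝟙 (A.prod Z)) (snd A Z)) (T.pull (fst A Z) a)

include hT in
lemma act_extBy (b : T.A A) (z : T.A Z) : T.act (extBy T Z b) z = T.ext b z := by
  rw [extBy, act_span, T.push_id]
  rfl

include hT in
lemma act_pairBy (a : T.A A) (x : T.A (A.prod Z)) :
    T.act (pairBy T Z a) x = T.push (snd A Z) (T.pull (fst A Z) a * x) := by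
  rw [pairBy, act_span, T.pull_id]

include hT in
lemma comp_extBy_pairBy (a b : T.A A) (hab : T.pull (fst A Z) a * T.pull (fst A Z) b =
    T.pull (fst A Z) b * T.pull (fst A Z) a) (c : F)
    (hc : T.push (snd A Z) (T.pull (fst A Z) (b * a)) = c • 1) :
    T.comp (extBy T Z b) (pairBy T Z a) = c • dg T Z := by
  have e0 : prodMap (𝟙 (A.prod Z)) (𝟙 Z) = 𝟙 ((A.prod Z).prod Z) := by
    apply prod_ext <;> simp
  have e1 : Obj.lift (𝟙 (A.prod Z)) (snd A Z) ≫ prodMap (snd A Z) (𝟙 Z) =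
      snd A Z ≫ Obj.lift (𝟙 Z) (𝟙 Z) := by
    apply prod_ext <;> simp [comp_lift]
  rw [extBy, comp_span, e0, T.pull_id, pairBy, ← T.proj_right, ← T.push_comp, ← T.pull_comp,
    lift_fst, T.pull_id, hab, ← map_mul, e1, T.push_comp, hc, map_smul]
  rfl

include hT in
lemma comp_cograph (f : X ⟶ Y) (Δ : T.A (X.prod Z)) :
    T.comp (T.cograph f) Δ = T.push (prodMap f (𝟙 Z)) Δ := by
  have e0 : prodMap (𝟙 X) (𝟙 Z) = 𝟙 (X.prod Z) := by
    apply prod_ext <;> simp
  rw [TheoryData.cograph, comp_span, e0, T.pull_id, map_one, mul_one]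

include hT in
lemma cograph_comp (f : X ⟶ Y) (g : Y ⟶ Z) :
    T.comp (T.cograph g) (T.cograph f) = T.cograph (f ≫ g) := by
  have e1 : Obj.lift f (𝟙 X) ≫ prodMap g (𝟙 X) = Obj.lift (f ≫ g) (𝟙 X) := by
    apply prod_ext <;> simp
  rw [comp_cograph, TheoryData.cograph, ← T.push_comp, e1]
  rfl

include hT in
lemma cograph_id (X : 𝒱.Obj) : T.cograph (𝟙 X) = dg T X := rfl

/-- The iterates of an endomorphism. -/
def iter (f : X ⟶ X) : ℕ → (X ⟶ X)
  | 0 => 𝟙 X
  | n + 1 => iter f n ≫ f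

/-- The iterates of a correspondence. -/
noncomputable def powC (Γ : T.A (X.prod X)) : ℕ → T.A (X.prod X)
  | 0 => dg T X
  | n + 1 => T.comp (powC Γ n) Γ

end theory

end Pool.Agent.W484.CH
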