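import Mathlib
import Pool.Agent.W484.CH.Corr
import Pool.Agent.W484.TB.Pair

/-!
# Chow groups of products with abelian varieties over finite fields: definitions
-/

set_option autoImplicit false

open CategoryTheory AlgebraicGeometry

universe u v w

namespace Pool.Agent.W484.CH

open Polynomial Pool.Agent.H914 Pool.Agent.H914.VarClass Pool.Agent.H914.VarClass.Obj
  Pool.Agent.W492.BB Pool.Agent.W550.Corr Pool.Agent.W484.TB

variable {k : Type u} [Field k] {𝒱 : VarClass k} {C : TheoryData.{u, v, 0} 𝒱 ℚ} {K : Type w}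
  [Field K] (H : WeilTheoryData.{u, v, w} C K)

/-- Standard properties which are not recorded in `IsChow` and `IsWeil`: the cohomology is
finite-dimensional, not zero, vanishes in degrees above `2 dim X`, and `H^0(X) = K`; the groups
`CH^i(X)` vanish for `i > dim X`, and `CH^0(X) = ℚ` (the varieties are geometrically
irreducible). -/
structure IsStandard : Prop where
  finite : ∀ X, Module.Finite K (H.A X)
  nontrivial : ∀ X, Nontrivial (H.A X)
  coh_top : ∀ (X : 𝒱.Obj) (i : ℤ), 2 * (X.dim : ℤ) < i → H.gr X i = ⊥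
  coh_zero : ∀ (X : 𝒱.Obj) (a : H.A X), H.Deg 0 a → ∃ c : K, a = c • 1
  chow_top : ∀ (X : 𝒱.Obj) (i : ℤ), (X.dim : ℤ) < i → C.gr X i = ⊥
  chow_zero : ∀ (X : 𝒱.Obj) (z : C.A X), C.Deg 0 z → ∃ c : ℚ, z = c • 1

/-- The endomorphism `π` of `X` acts on the Chow groups like the Frobenius endomorphism relative to
the field with `Q` elements: `π^*` is multiplication by `Q ^ i` on `CH^i(X)`, and `π` has degree
`Q ^ dim X`. -/
structure IsFrobenius (C : TheoryData.{u, v, 0} 𝒱 ℚ) {X : 𝒱.Obj} (π : X ⟶ X) (Q : ℕ) : Prop where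
  chow : ∀ (i : ℕ) (z : C.A X), C.Deg i z → C.up π z = (Q : ℚ) ^ i • z
  degree : C.down π 1 = (Q : ℚ) ^ X.dim • (1 : C.A X)

/-- The cohomology of `A` is generated by `H^1(A)`. -/
def IsGenerated (A : 𝒱.Obj) : Prop := Algebra.adjoin K (H.gr A 1 : Set (H.A A)) = ⊤

/-- The elements of `H^1(A)` anticommute. -/
def IsAnticommutative (A : 𝒱.Obj) : Prop :=
  ∀ a b : H.A A, H.Deg 1 a → H.Deg 1 b → H.mul a b = -(H.mul b a)

/-- `c` is an eigenvector of `π` in `H^1(A)` with an eigenvalue `z ^ s`, where `z` is a root of one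
of the `f i`. -/
def IsRootVector {A : 𝒱.Obj} (π : A ⟶ A) (s : ℕ) {I : Type} (f : I → ℤ[X]) (c : H.A A) : Prop :=
  H.Deg 1 c ∧ ∃ i, ∃ z : K, aeval z (f i) = 0 ∧ H.up π c = z ^ s • c

/-- `H^1(A)` is spanned by the vectors described in `IsRootVector`. -/
def IsSpanned {A : 𝒱.Obj} (π : A ⟶ A) (s : ℕ) {I : Type} (f : I → ℤ[X]) : Prop :=
  Submodule.span K {c | IsRootVector H π s f c} = H.gr A 1

/-- `c` is the class of a divisor, with rational coefficients. -/
def IsDivisorClass {A : 𝒱.Obj} (c : H.A A) : Prop := ∃ D : C.A A, C.Deg 1 D ∧ c = H.cl D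

/-- The theorem of Tate: the classes in `H^2(A)` on which `π` acts as multiplication by `Q` are
linear combinations of classes of divisors. -/
def HasTateDivisors {A : 𝒱.Obj} (π : A ⟶ A) (Q : ℕ) : Prop :=
  ∀ c : H.A A, H.Deg 2 c → H.up π c = (Q : K) • c → c ∈ Submodule.span K {c | IsDivisorClass H c}

/-- The abelian variety `A` over the field with `Q = q ^ s` elements, with Frobenius endomorphism
`π`, is isogenous to a product of powers of abelian varieties which come from the field with `q`
elements and have characteristic polynomials of Frobenius `f i` over this field: the cohomology of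
`A` is generated by `H^1(A)`, whose elements anticommute, and which is spanned by eigenvectors of
Frobenius with eigenvalues `z ^ s`, `z` a root of some `f i`; moreover Tate's theorem on
divisors holds. -/
structure IsAbelian {A : 𝒱.Obj} (π : A ⟶ A) (q s : ℕ) {I : Type} (f : I → ℤ[X]) : Prop where
  frobenius : IsFrobenius C π (q ^ s)
  isGenerated : IsGenerated H A
  isAnticommutative : IsAnticommutative H A
  isSpanned : IsSpanned H π s f
  hasTateDivisors : HasTateDivisors H π (q ^ s)

namespace IsAbelian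

variable {H} {A : 𝒱.Obj} {π : A ⟶ A} {q s : ℕ} {I : Type} {f : I → ℤ[X]}

theorem generated (h : IsAbelian H π q s f) : Algebra.adjoin K (H.gr A 1 : Set (H.A A)) = ⊤ :=
  h.isGenerated

theorem anticomm (h : IsAbelian H π q s f) : ∀ a b : H.A A, H.Deg 1 a → H.Deg 1 b →
    a * b = -(b * a) := h.isAnticommutative

theorem eigen (h : IsAbelian H π q s f) : Submodule.span K {c | H.Deg 1 c ∧ ∃ i, ∃ z : K,
    aeval z (f i) = 0 ∧ H.up π c = z ^ s • c} = H.gr A 1 := h.isSpanned

theorem tate (h : IsAbelian H π q s f) : ∀ c : H.A A, H.Deg 2 c →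
    H.up π c = ((q ^ s : ℕ) : K) • c →
    c ∈ Submodule.span K {c | ∃ D : C.A A, C.Deg 1 D ∧ c = H.cl D} := h.hasTateDivisors

end IsAbelian

/-- The eigenvalues of the linear map `φ` are roots of a nonzero rational polynomial all of whose
roots in `ℂ` lie, up to powers, in a group generated by the nonzero elements of the number field
`E` and `r` numbers. -/
def EigenRankLE {V : Type*} [AddCommGroup V] [Module K V] (E : IntermediateField ℚ ℂ) (r : ℕ)
    [CharZero K] (φ : V →ₗ[K] V) : Prop :=
  ∃ χ : ℚ[X], χ ≠ 0 ∧ (∀ (ρ : K) (v : V), v ≠ 0 → φ v = ρ • v → aeval ρ χ = 0) ∧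
    RankLEOver E r {ρ : ℂ | aeval ρ χ = 0}

/-- Every self-correspondence of degree zero of `X` which acts as zero on the cohomology is
nilpotent. This holds if the motive of `X` is finite-dimensional in the sense of Kimura and
O'Sullivan, for instance if `X` is dominated by a product of curves. -/
def Nilpotence (X : 𝒱.Obj) : Prop :=
  ∀ Γ : C.A (X.prod X), C.Deg X.dim Γ → (∀ a : H.A X, H.act (H.cl Γ) a = 0) →
    ∃ n : ℕ, powC C Γ n = 0

/-- Rational and numerical equivalence coincide on `X`, with rational coefficients. (The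
intersection number of cycles `z`, `w` is the value of the orientation at the class of `z · w`, up
to a nonzero constant.) -/
def RatEqNum (X : 𝒱.Obj) : Prop :=
  ∀ (i : ℕ) (z : C.A X), C.Deg i z →
    (∀ (j : ℕ) (w : C.A X), i + j = X.dim → C.Deg j w → H.tr X (H.cl (C.mul z w)) = 0) → z = 0

end Pool.Agent.W484.CH
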