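import Mathlib
import Pool.Agent.W484.CH.Defs

/-!
# The Kunneth decomposition and orientations
-/

set_option autoImplicit false
set_option linter.unusedSectionVars false

open CategoryTheory AlgebraicGeometry

universe u v w

namespace Pool.Agent.W484.CH

open Module Polynomial Pool.Agent.H914 Pool.Agent.H914.VarClass Pool.Agent.H914.VarClass.Obj
  Pool.Agent.W492.BB Pool.Agent.W550.Corr Pool.Agent.W484.TB

variable {k : Type u} [Field k] {𝒱 : VarClass k} {C : TheoryData.{u, v, 0} 𝒱 ℚ} {K : Type w}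
  [Field K] {H : WeilTheoryData.{u, v, w} C K} [hC : IsChow C] [hH : IsWeil H]
  (hS : IsStandard H) {A Z X Y : 𝒱.Obj}

section homog

variable {F : Type w} [Field F] {δ : ℤ} (T : TheoryData.{u, v, w} 𝒱 F) [hT : IsTheory T δ]

include hT in
/-- Induction on homogeneous components. -/
theorem homog_induction {p : T.A X → Prop} (h : ∀ (i : ℤ) (a : T.A X), a ∈ T.gr X i → p a)
    (hadd : ∀ a b, p a → p b → p (a + b)) (a : T.A X) : p a := by
  have h1 : a ∈ ⨆ i, T.gr X i := by
    rw [(T.isInternal X).submodule_iSup_eq_top]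
    exact Submodule.mem_top
  induction h1 using Submodule.iSup_induction' with
  | mem i x hx => exact h i x hx
  | zero => exact h 0 0 (Submodule.zero_mem _)
  | add x y _ _ hx hy => exact hadd x y hx hy

end homog

theorem tr_fst (a : H.A A) (y : H.A (A.prod Z)) :
    H.tr (A.prod Z) (H.pull (fst A Z) a * y) = H.tr A (a * H.push (fst A Z) y) := by
  rw [← H.tr_push (fst A Z), H.proj_left]

theorem tr_snd (x : H.A (A.prod Z)) (h : H.A Z) :
    H.tr (A.prod Z) (x * H.pull (snd A Z) h) = H.tr Z (H.push (snd A Z) x * h) := by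
  rw [← H.tr_push (snd A Z), H.proj_right]

include hS

/-- The push-forward to `A` of a class on `Z` is a constant. -/
theorem exists_scalar (A : 𝒱.Obj) (h : H.A Z) :
    ∃ c : K, H.push (fst A Z) (H.pull (snd A Z) h) = c • 1 := by
  refine homog_induction H.toTheoryData (p := fun h => ∃ c : K,
    H.push (fst A Z) (H.pull (snd A Z) h) = c • 1) ?_ ?_ h
  · intro i h hi
    rcases lt_trichotomy i (2 * Z.dim) with h1 | h1 | h1
    · refine ⟨0, ?_⟩
      have h2 := H.push_mem (fst A Z) (H.pull_mem (snd A Z) hi)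
      rw [H.gr_neg _ _ (by
        rw [Obj.dim_prod]
        push_cast
        linarith)] at h2
      rw [(Submodule.mem_bot _).1 h2, zero_smul]
    · have h2 := H.push_mem (fst A Z) (H.pull_mem (snd A Z) hi)
      refine hS.coh_zero _ _ ?_
      rw [h1, Obj.dim_prod] at h2
      push_cast at h2
      rw [show 2 * (Z.dim : ℤ) + 2 * (A.dim - (A.dim + Z.dim)) = 0 by ring] at h2
      exact h2
    · refine ⟨0, ?_⟩
      rw [hS.coh_top _ _ h1] at hi
      rw [(Submodule.mem_bot _).1 hi, map_zero, map_zero, zero_smul]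
  · rintro a b ⟨c, hc⟩ ⟨d, hd⟩
    exact ⟨c + d, by rw [map_add, map_add, hc, hd, add_smul]⟩

/-- **Orientations of products.** -/
theorem exists_tau (A Z : 𝒱.Obj) : ∃ τ : K, τ ≠ 0 ∧ ∀ (a : H.A A) (h : H.A Z),
    τ * H.tr (A.prod Z) (H.ext a h) = H.tr A a * H.tr Z h := by
  obtain ⟨a₀, -, -, ha₀⟩ := exists_deg_one C A
  have h1 : ∀ h : H.A Z, H.tr (A.prod Z) (H.ext (H.cl a₀) h) = H.tr Z h := by
    intro h
    rw [TheoryData.ext, tr_snd, ← H.cl_pull, ← H.cl_push, ha₀ Z, map_one, one_mul]
  have h2 : ∀ h : H.A Z, ∃ c : K, ∀ a : H.A A, H.tr (A.prod Z) (H.ext a h) = c * H.tr A a := by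
    intro h
    obtain ⟨c, hc⟩ := exists_scalar hS A h
    refine ⟨c, fun a => ?_⟩
    rw [TheoryData.ext, tr_fst, hc, mul_smul_comm, mul_one, map_smul, smul_eq_mul]
  refine ⟨H.tr A (H.cl a₀), ?_, fun a h => ?_⟩
  · intro h0
    have := hS.nontrivial Z
    apply one_ne_zero (α := H.A Z)
    apply H.nondeg
    intro b
    obtain ⟨c, hc⟩ := h2 (1 * b)
    rw [← h1, hc, h0, mul_zero]
  · obtain ⟨c, hc⟩ := h2 h
    rw [← h1 h, hc, hc]
    ring

/-- **Uniqueness in the Kunneth formula.** -/
theorem kunneth_unique {r : ℕ} (b : Basis (Fin r) K (H.A A)) (h : Fin r → H.A Z)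
    (h0 : ∑ t, H.ext (b t) (h t) = 0) (t : Fin r) : h t = 0 := by
  classical
  have := hS.finite A
  obtain ⟨τ, hτ, htr⟩ := exists_tau hS A Z
  -- the dual basis
  let Φ : H.A A →ₗ[K] Dual K (H.A A) :=
    LinearMap.compr₂ (LinearMap.mul K (H.A A)) (H.tr A)
  have hΦ : ∀ x y, Φ x y = H.tr A (x * y) := fun _ _ => rfl
  have hinj : Function.Injective Φ := by
    rw [injective_iff_map_eq_zero]
    intro x hx
    apply H.nondeg
    intro y
    rw [← hΦ, hx, LinearMap.zero_apply]
  have hsurj : Function.Surjective Φ := by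
    refine (LinearMap.injective_iff_surjective_of_finrank_eq_finrank ?_).1 hinj
    rw [Subspace.dual_finrank_eq]
  obtain ⟨a, ha⟩ := hsurj (b.coord t)
  have ha' : ∀ t', H.tr A (a * b t') = if t' = t then 1 else 0 := by
    intro t'
    rw [← hΦ, ha, Basis.coord_apply, Basis.repr_self, Finsupp.single_apply]
  apply H.nondeg
  intro h'
  have h1 : H.tr (A.prod Z) (H.pull (fst A Z) a * (∑ t, H.ext (b t) (h t)) *
      H.pull (snd A Z) h') = 0 := by
    rw [h0, mul_zero, zero_mul, map_zero]
  rw [Finset.mul_sum, Finset.sum_mul, map_sum] at h1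
  have h2 : ∀ t', H.pull (fst A Z) a * H.ext (b t') (h t') * H.pull (snd A Z) h' =
      H.ext (a * b t') (h t' * h') := by
    intro t'
    rw [TheoryData.ext, TheoryData.ext, map_mul, map_mul, mul_assoc, mul_assoc, mul_assoc]
  have h3 := congrArg (fun z => τ * z) h1
  beta_reduce at h3
  rw [mul_zero, Finset.mul_sum, Finset.sum_congr rfl fun t' _ => by rw [h2 t', htr, ha' t']] at h3
  simpa using h3

omit hS in
theorem ext_add_left (a a' : H.A A) (h : H.A Z) : H.ext (a + a') h = H.ext a h + H.ext a' h := by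
  rw [TheoryData.ext, map_add, add_mul]
  rfl

omit hS in
theorem ext_smul_left (c : K) (a : H.A A) (h : H.A Z) : H.ext (c • a) h = H.ext a (c • h) := by
  rw [TheoryData.ext, TheoryData.ext, map_smul, map_smul, smul_mul_assoc, mul_smul_comm]

omit hS in
theorem ext_smul_right (c : K) (a : H.A A) (h : H.A Z) : H.ext a (c • h) = c • H.ext a h := by
  rw [TheoryData.ext, TheoryData.ext, map_smul, mul_smul_comm]

omit hS in
theorem ext_add_right (a : H.A A) (h h' : H.A Z) : H.ext a (h + h') = H.ext a h + H.ext a h' := by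
  rw [TheoryData.ext, map_add, mul_add]
  rfl

omit hS in
/-- **Existence in the Kunneth formula.** -/
theorem kunneth_exists {r : ℕ} (b : Basis (Fin r) K (H.A A)) (w : H.A (A.prod Z)) :
    ∃ h : Fin r → H.A Z, w = ∑ t, H.ext (b t) (h t) := by
  refine homog_induction H.toTheoryData (p := fun w => ∃ h : Fin r → H.A Z,
    w = ∑ t, H.ext (b t) (h t)) ?_ ?_ w
  · intro m w hw
    have h1 := H.kunneth A Z m hw
    clear hw
    induction h1 using Submodule.span_induction with
    | mem x hx =>
      obtain ⟨l, a, c, -, -, rfl⟩ := hx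
      refine ⟨fun t => b.repr a t • c, ?_⟩
      have h2 : a = ∑ t, b.repr a t • b t := (b.sum_repr a).symm
      conv_lhs => rw [h2, map_sum, Finset.sum_mul]
      refine Finset.sum_congr rfl fun t _ => ?_
      rw [map_smul, smul_mul_assoc, ext_smul_right]
      rfl
    | zero => exact ⟨0, by simp [TheoryData.ext]⟩
    | add x y _ _ hx hy =>
      obtain ⟨h, hh⟩ := hx
      obtain ⟨h', hh'⟩ := hy
      refine ⟨h + h', ?_⟩
      rw [hh, hh', ← Finset.sum_add_distrib]
      exact Finset.sum_congr rfl fun t _ => (ext_add_right _ _ _).symm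
    | smul c x _ hx =>
      obtain ⟨h, hh⟩ := hx
      refine ⟨c • h, ?_⟩
      rw [hh, Finset.smul_sum]
      exact Finset.sum_congr rfl fun t _ => (ext_smul_right _ _ _).symm
  · rintro x y ⟨h, hh⟩ ⟨h', hh'⟩
    refine ⟨h + h', ?_⟩
    rw [hh, hh', ← Finset.sum_add_distrib]
    exact Finset.sum_congr rfl fun t _ => (ext_add_right _ _ _).symm

end Pool.Agent.W484.CH
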