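import Mathlib
import Pool.Agent.W484.CH.Kun

/-!
# Theories on which correspondences act, and the Kunneth formula
-/

set_option autoImplicit false
set_option linter.unusedSectionVars false

open CategoryTheory AlgebraicGeometry

universe u v w

namespace Pool.Agent.W484.CH

open Module Polynomial Pool.Agent.H914 Pool.Agent.H914.VarClass Pool.Agent.H914.VarClass.Obj
  Pool.Agent.W492.BB Pool.Agent.W550.Corr Pool.Agent.W484.TB

variable {k : Type u} [Field k] {𝒱 : VarClass k}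

/-- Data of a theory on which correspondences act: vector spaces `M(X)` over `ℚ` with subspaces
`M^i(X)`, and an action of the classes in `CH(X × Y)` as maps `M(X) → M(Y)`. -/
structure CorrData (C : TheoryData.{u, v, 0} 𝒱 ℚ) where
  /-- the space `M(X)` -/
  M : 𝒱.Obj → Type v
  [group : ∀ X, AddCommGroup (M X)]
  [module : ∀ X, Module ℚ (M X)]
  /-- the space `M^i(X)` -/
  gr : ∀ X, ℤ → Submodule ℚ (M X)
  /-- the action of correspondences -/
  act : ∀ {X Y : 𝒱.Obj}, C.A (X.prod Y) →ₗ[ℚ] M X →ₗ[ℚ] M Y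

attribute [instance] CorrData.group CorrData.module

namespace CorrData

variable {C : TheoryData.{u, v, 0} 𝒱 ℚ} (T : CorrData C) {X Y : 𝒱.Obj}

/-- The element `m` lies in `M^i(X)`. -/
abbrev Deg (i : ℤ) (m : T.M X) : Prop := m ∈ T.gr X i

/-- The action of the correspondence `Γ`. -/
noncomputable abbrev app (Γ : C.A (X.prod Y)) (m : T.M X) : T.M Y := T.act Γ m

end CorrData

/-- The action of correspondences shifts the degrees as usual, and is compatible with composition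
and identities. Examples: the Chow groups, the higher Chow groups `CH^i(X, m)` and the `K`-groups
`K_m(X)^(i)`, for fixed `m`, all with rational coefficients. -/
structure IsCorrTheory {C : TheoryData.{u, v, 0} 𝒱 ℚ} (T : CorrData C) : Prop where
  app_mem : ∀ {X Y : 𝒱.Obj} {i j : ℤ} {Γ : C.A (X.prod Y)} {m : T.M X}, C.Deg (X.dim + j) Γ →
    T.Deg i m → T.Deg (i + j) (T.app Γ m)
  app_comp : ∀ {X Y Z : 𝒱.Obj} (Γ : C.A (X.prod Y)) (Δ : C.A (Y.prod Z)) (m : T.M X),
    T.app (C.comp Γ Δ) m = T.app Δ (T.app Γ m)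
  app_id : ∀ {X : 𝒱.Obj} (m : T.M X), T.app (C.graph (𝟙 X)) m = m

namespace IsCorrTheory

variable {C : TheoryData.{u, v, 0} 𝒱 ℚ} {T : CorrData C}

theorem act_mem (h : IsCorrTheory T) {X Y : 𝒱.Obj} {i j : ℤ} {Γ : C.A (X.prod Y)} {m : T.M X}
    (hΓ : C.Deg (X.dim + j) Γ) (hm : m ∈ T.gr X i) : T.act Γ m ∈ T.gr Y (i + j) :=
  h.app_mem hΓ hm

theorem act_comp (h : IsCorrTheory T) {X Y Z : 𝒱.Obj} (Γ : C.A (X.prod Y)) (Δ : C.A (Y.prod Z))
    (m : T.M X) : T.act (C.comp Γ Δ) m = T.act Δ (T.act Γ m) := h.app_comp Γ Δ m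

theorem act_id (h : IsCorrTheory T) {X : 𝒱.Obj} (m : T.M X) :
    T.act (C.graph (𝟙 X)) m = m := h.app_id m

end IsCorrTheory

/-- The endomorphism `π` acts on `M^i(X)` as multiplication by `Q ^ i`. -/
def ActsAsPower {C : TheoryData.{u, v, 0} 𝒱 ℚ} (T : CorrData C) {X : 𝒱.Obj} (π : X ⟶ X) (Q : ℕ) :
    Prop :=
  ∀ (i : ℤ) (m : T.M X), T.Deg i m → T.app (C.cograph π) m = (Q : ℚ) ^ i • m

/-- A dual system: classes `D j` of codimension `deg j` and `E j` of complementary codimension on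
`A` with `deg (D i · E j)` equal to `1` for `i = j` and to `0` otherwise. -/
structure IsDual {C : TheoryData.{u, v, 0} 𝒱 ℚ} (A Z : 𝒱.Obj) {J : Type} (deg : J → ℕ)
    (D E : J → C.A A) : Prop where
  le : ∀ j, deg j ≤ A.dim
  left : ∀ j, C.Deg (deg j) (D j)
  right : ∀ j, C.Deg ((A.dim : ℤ) - deg j) (E j)
  eq : ∀ i, C.push (snd A Z) (C.pull (fst A Z) (D i * E i)) = 1
  ne : ∀ i j, i ≠ j → C.push (snd A Z) (C.pull (fst A Z) (D i * E j)) = 0

section core

variable {C : TheoryData.{u, v, 0} 𝒱 ℚ} [hC : IsChow C] {A Z : 𝒱.Obj} {J : Type} [Fintype J]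
  {deg : J → ℕ} {D E : J → C.A A}

theorem comp_extBy_same (h : IsDual A Z deg D E) (i : J) :
    C.comp (extBy C Z (D i)) (pairBy C Z (E i)) = dg C Z := by
  rw [comp_extBy_pairBy C (E i) (D i) (chow_mul_comm _ _) 1 (by rw [h.eq, one_smul]), one_smul]

theorem comp_extBy_ne (h : IsDual A Z deg D E) (i j : J) (hij : i ≠ j) :
    C.comp (extBy C Z (D i)) (pairBy C Z (E j)) = 0 := by
  rw [comp_extBy_pairBy C (E j) (D i) (chow_mul_comm _ _) 0 (by rw [h.ne i j hij, zero_smul]),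
    zero_smul]

theorem extBy_mem {i : ℤ} {b : C.A A} (hb : C.Deg i b) :
    C.Deg (Z.dim + i) (extBy C Z b) := by
  have h1 := C.push_mem (Obj.lift (snd A Z) (𝟙 (A.prod Z))) (C.pull_mem (fst A Z) hb)
  have h2 : i + 1 * (((Z.prod (A.prod Z)).dim : ℤ) - (A.prod Z).dim) = Z.dim + i := by
    rw [Obj.dim_prod, Obj.dim_prod]
    push_cast
    ring
  rw [h2] at h1
  exact h1

theorem pairBy_mem {i : ℤ} {a : C.A A} (ha : C.Deg (A.dim - i) a) :
    C.Deg ((A.prod Z).dim + -i) (pairBy C Z a) := by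
  have h1 := C.push_mem (Obj.lift (𝟙 (A.prod Z)) (snd A Z)) (C.pull_mem (fst A Z) ha)
  have h2 : (A.dim : ℤ) - i + 1 * ((((A.prod Z).prod Z).dim : ℤ) - (A.prod Z).dim) =
      (A.prod Z).dim + -i := by
    rw [Obj.dim_prod, Obj.dim_prod]
    push_cast
    ring
  rw [h2] at h1
  exact h1

/-- The projector. -/
noncomputable def proj (Z : 𝒱.Obj) (D E : J → C.A A) : C.A ((A.prod Z).prod (A.prod Z)) :=
  ∑ j, C.comp (pairBy C Z (E j)) (extBy C Z (D j))

variable {T : CorrData C} (hT : IsCorrTheory T)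

include hT in
theorem act_proj (m : T.M (A.prod Z)) :
    T.act (proj Z D E) m = ∑ j, T.act (extBy C Z (D j)) (T.act (pairBy C Z (E j)) m) := by
  rw [proj, map_sum, LinearMap.sum_apply]
  exact Finset.sum_congr rfl fun j _ => hT.act_comp _ _ _

include hT in
open Classical in
theorem act_pair_ext (h : IsDual A Z deg D E) (i j : J) (z : T.M Z) :
    T.act (pairBy C Z (E j)) (T.act (extBy C Z (D i)) z) = if i = j then z else 0 := by
  rw [← hT.act_comp]
  by_cases hij : i = j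
  · subst hij
    rw [comp_extBy_same h, if_pos rfl]
    exact hT.act_id z
  · rw [comp_extBy_ne h i j hij, if_neg hij, map_zero, LinearMap.zero_apply]

include hT in
theorem act_proj_proj (h : IsDual A Z deg D E) (m : T.M (A.prod Z)) :
    T.act (proj Z D E) (T.act (proj Z D E) m) = T.act (proj Z D E) m := by
  classical
  rw [act_proj hT (T.act (proj Z D E) m), act_proj hT m]
  refine Finset.sum_congr rfl fun j _ => ?_
  rw [map_sum]
  refine congrArg _ ?_
  rw [Finset.sum_congr rfl fun i _ => act_pair_ext hT h i j _, Finset.sum_ite_eq',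
    if_pos (Finset.mem_univ _)]

include hT in
theorem act_ext_mem (h : IsDual A Z deg D E) {i : ℤ} (j : J) {z : T.M Z} (hz : z ∈ T.gr Z i) :
    T.act (extBy C Z (D j)) z ∈ T.gr (A.prod Z) (i + deg j) :=
  hT.act_mem (extBy_mem (h.left j)) hz

include hT in
theorem act_pair_mem (h : IsDual A Z deg D E) {i : ℤ} (j : J) {m : T.M (A.prod Z)}
    (hm : m ∈ T.gr (A.prod Z) i) : T.act (pairBy C Z (E j)) m ∈ T.gr Z (i + -deg j) :=
  hT.act_mem (pairBy_mem (h.right j)) hm

include hT in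
theorem act_proj_mem (h : IsDual A Z deg D E) {i : ℤ} {m : T.M (A.prod Z)}
    (hm : m ∈ T.gr (A.prod Z) i) : T.act (proj Z D E) m ∈ T.gr (A.prod Z) i := by
  rw [act_proj hT]
  refine Submodule.sum_mem _ fun j _ => ?_
  have h1 := act_ext_mem hT h j (act_pair_mem hT h j hm)
  rwa [neg_add_cancel_right] at h1

/-- The polynomial `P` in the endomorphism `π`, as a correspondence. -/
noncomputable def polyC {X : 𝒱.Obj} (π : X ⟶ X) (P : ℚ[X]) : C.A (X.prod X) :=
  ∑ l ∈ P.support, P.coeff l • C.cograph (iter π l)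

theorem cograph_mem {X Y : 𝒱.Obj} (f : X ⟶ Y) : C.Deg Y.dim (C.cograph f) := by
  have h1 := C.push_mem (Obj.lift f (𝟙 X)) (C.one_mem X)
  have h2 : (0 : ℤ) + 1 * (((Y.prod X).dim : ℤ) - X.dim) = Y.dim := by
    rw [Obj.dim_prod]
    push_cast
    ring
  rw [h2] at h1
  exact h1

theorem polyC_mem {X : 𝒱.Obj} (π : X ⟶ X) (P : ℚ[X]) : C.Deg X.dim (polyC (C := C) π P) :=
  Submodule.sum_mem _ fun _ _ => Submodule.smul_mem _ _ (cograph_mem _)

include hT in
theorem act_iter {X : 𝒱.Obj} {π : X ⟶ X} {Q : ℕ} (hπ : ActsAsPower T π Q) {i : ℤ} {m : T.M X}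
    (hm : m ∈ T.gr X i) (l : ℕ) : T.act (C.cograph (iter π l)) m = ((Q : ℚ) ^ i) ^ l • m := by
  induction l with
  | zero =>
    rw [pow_zero, one_smul]
    exact hT.act_id m
  | succ l ih =>
    rw [iter, ← cograph_comp, hT.act_comp, show T.act (C.cograph π) m = (Q : ℚ) ^ i • m from hπ i m hm,
      map_smul, ih, smul_smul, pow_succ']

include hT in
theorem act_polyC {X : 𝒱.Obj} {π : X ⟶ X} {Q : ℕ} (hπ : ActsAsPower T π Q) {i : ℤ} {m : T.M X}
    (hm : m ∈ T.gr X i) (P : ℚ[X]) :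
    T.act (polyC π P) m = P.eval ((Q : ℚ) ^ i) • m := by
  rw [polyC, map_sum, LinearMap.sum_apply, Polynomial.eval_eq_sum, Polynomial.sum,
    Finset.sum_smul]
  refine Finset.sum_congr rfl fun l _ => ?_
  rw [map_smul, LinearMap.smul_apply, act_iter hT hπ hm, smul_smul]

end core

end Pool.Agent.W484.CH
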