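import Mathlib
import Pool.Agent.W484.CH.Core

/-!
# The Kunneth formula from the nilpotence of homologically trivial correspondences
-/

set_option autoImplicit false
set_option linter.unusedSectionVars false

open CategoryTheory AlgebraicGeometry

universe u v w

namespace Pool.Agent.W484.CH

open Module Polynomial Pool.Agent.H914 Pool.Agent.H914.VarClass Pool.Agent.H914.VarClass.Obj
  Pool.Agent.W492.BB Pool.Agent.W550.Corr Pool.Agent.W484.TB

variable {k : Type u} [Field k] {𝒱 : VarClass k} {C : TheoryData.{u, v, 0} 𝒱 ℚ} {K : Type w}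
  [Field K] {H : WeilTheoryData.{u, v, w} C K} [hC : IsChow C] [hH : IsWeil H]
  {A Z X Y : 𝒱.Obj} {J : Type} [Fintype J] {deg : J → ℕ} {D E : J → C.A A}

omit hH in
theorem comp_mem {a b : C.A (X.prod X)} (ha : C.Deg X.dim a) (hb : C.Deg X.dim b) :
    C.Deg X.dim (C.comp a b) := by
  have h1 := C.push_mem (t13 X X X) (C.mul_mem (C.pull_mem (t23 X X X) hb)
    (C.pull_mem (fst (X.prod X) X) ha))
  have h2 : (X.dim : ℤ) + X.dim + 1 * (((X.prod X).dim : ℤ) - ((X.prod X).prod X).dim) =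
      X.dim := by
    rw [Obj.dim_prod, Obj.dim_prod, Obj.dim_prod]
    push_cast
    ring
  rw [h2] at h1
  exact h1

theorem act_cl_comp {Z' : 𝒱.Obj} (a : C.A (X.prod Y)) (b : C.A (Y.prod Z')) (w : H.A X) :
    H.act (H.cl (C.comp a b)) w = H.act (H.cl b) (H.act (H.cl a) w) := by
  have h1 : H.cl (C.comp a b) = H.comp (H.cl a) (H.cl b) := by
    rw [TheoryData.comp, TheoryData.comp, H.cl_push, map_mul, H.cl_pull, H.cl_pull]
  rw [h1, H.act_comp]

theorem cl_graph (f : X ⟶ Y) : H.cl (C.graph f) = H.graph f := by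
  rw [TheoryData.graph, TheoryData.graph, H.cl_push, map_one]

theorem cl_cograph (f : X ⟶ Y) : H.cl (C.cograph f) = H.cograph f := by
  rw [TheoryData.cograph, TheoryData.cograph, H.cl_push, map_one]

theorem act_cl_dg (w : H.A X) : H.act (H.cl (dg C X)) w = w := by
  rw [dg, cl_graph, H.act_graph, H.push_id]

theorem act_cl_cograph (f : X ⟶ Y) (w : H.A Y) : H.act (H.cl (C.cograph f)) w = H.pull f w := by
  rw [cl_cograph, H.act_cograph]

omit hH in
theorem proj_mem (h : IsDual A Z deg D E) : C.Deg (A.prod Z).dim (proj Z D E) := by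
  refine Submodule.sum_mem _ fun j _ => ?_
  have h1 : C.Deg ((A.prod Z).dim + -(deg j : ℤ)) (pairBy C Z (E j)) := pairBy_mem (h.right j)
  have h2 : C.Deg (Z.dim + (deg j : ℤ)) (extBy C Z (D j)) := extBy_mem (h.left j)
  have h3 := C.push_mem (t13 (A.prod Z) Z (A.prod Z)) (C.mul_mem
    (C.pull_mem (t23 (A.prod Z) Z (A.prod Z)) h2)
    (C.pull_mem (fst ((A.prod Z).prod Z) (A.prod Z)) h1))
  have h4 : (Z.dim : ℤ) + deg j + ((A.prod Z).dim + -(deg j : ℤ)) +
      1 * ((((A.prod Z).prod (A.prod Z)).dim : ℤ) - (((A.prod Z).prod Z).prod (A.prod Z)).dim) =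
      (A.prod Z).dim := by
    simp only [Obj.dim_prod]
    push_cast
    ring
  rw [h4] at h3
  exact h3

theorem core_aux {T : CorrData C} (hT : IsCorrTheory T) {π : X ⟶ X} {Q : ℕ}
    (hπ : ActsAsPower T π Q) (hnil : Nilpotence H X) (p : C.A (X.prod X)) (hpd : C.Deg X.dim p)
    (hpp : ∀ m, T.act p (T.act p m) = T.act p m) (i : ℤ)
    (hpm : ∀ m, m ∈ T.gr X i → T.act p m ∈ T.gr X i)
    (P : ℚ[X]) (hP : P.eval ((Q : ℚ) ^ i) ≠ 0)
    (hkill : ∀ w : H.A X, H.act (H.cl p) (H.act (H.cl (polyC π P)) w) =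
      H.act (H.cl (polyC π P)) w) {m : T.M X} (hm : m ∈ T.gr X i) :
    T.act p m = m := by
  set Θ := C.comp (polyC π P) (dg C X - p) with hΘ
  have hdg : C.Deg X.dim (dg C X) := by
    have h1 := C.push_mem (Obj.lift (𝟙 X) (𝟙 X)) (C.one_mem X)
    have h2 : (0 : ℤ) + 1 * (((X.prod X).dim : ℤ) - X.dim) = X.dim := by
      rw [Obj.dim_prod]
      push_cast
      ring
    rw [h2] at h1
    exact h1
  have hΘd : C.Deg X.dim Θ := comp_mem (polyC_mem π P) (Submodule.sub_mem _ hdg hpd)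
  have hΘ0 : ∀ w : H.A X, H.act (H.cl Θ) w = 0 := by
    intro w
    rw [hΘ, act_cl_comp, map_sub, H.act_sub, act_cl_dg, hkill, sub_self]
  obtain ⟨n, hn⟩ := hnil Θ hΘd hΘ0
  set y := m - T.act p m with hy
  have hym : y ∈ T.gr X i := Submodule.sub_mem _ hm (hpm m hm)
  have hy0 : T.act p y = 0 := by
    rw [hy, map_sub, hpp, sub_self]
  have hΘy : T.act Θ y = P.eval ((Q : ℚ) ^ i) • y := by
    have h3 : T.act (dg C X - p) y = y := by
      rw [map_sub T.act, LinearMap.sub_apply, hy0, sub_zero]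
      exact hT.act_id y
    rw [hΘ, hT.act_comp, act_polyC hT hπ hym, map_smul, h3]
  have hpow : ∀ n : ℕ, T.act (powC C Θ n) y = P.eval ((Q : ℚ) ^ i) ^ n • y := by
    intro n
    induction n with
    | zero =>
      rw [pow_zero, one_smul]
      exact hT.act_id y
    | succ n ih => rw [powC, hT.act_comp, ih, map_smul, hΘy, smul_smul, pow_succ]
  have h1 := hpow n
  rw [hn, map_zero, LinearMap.zero_apply] at h1
  have h2 := (smul_eq_zero.1 h1.symm).resolve_left (pow_ne_zero _ hP)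
  rw [hy, sub_eq_zero] at h2
  exact h2.symm

/-- **The Kunneth formula.** -/
theorem kunneth_core (h : IsDual A Z deg D E) {T : CorrData C} (hT : IsCorrTheory T)
    {π : A.prod Z ⟶ A.prod Z} {Q : ℕ} (hπ : ActsAsPower T π Q) (hnil : Nilpotence H (A.prod Z))
    (i : ℤ) (P : ℚ[X]) (hP : P.eval ((Q : ℚ) ^ i) ≠ 0)
    (hkill : ∀ w : H.A (A.prod Z), H.act (H.cl (proj Z D E)) (H.act (H.cl (polyC π P)) w) =
      H.act (H.cl (polyC π P)) w) {m : T.M (A.prod Z)} (hm : m ∈ T.gr (A.prod Z) i) :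
    m = ∑ j, T.act (extBy C Z (D j)) (T.act (pairBy C Z (E j)) m) := by
  rw [← act_proj hT, core_aux hT hπ hnil (proj Z D E) (proj_mem h) (act_proj_proj hT h) i
    (fun m hm => act_proj_mem hT h hm) P hP hkill hm]

end Pool.Agent.W484.CH
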