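import Mathlib
import Pool.Agent.W484.CH.Main

/-!
# The classes generated by divisors
-/

set_option autoImplicit false
set_option linter.unusedSectionVars false

open CategoryTheory AlgebraicGeometry

universe u v w

namespace Pool.Agent.W484.CH

open Module Polynomial Pool.Agent.H914 Pool.Agent.H914.VarClass Pool.Agent.H914.VarClass.Obj
  Pool.Agent.W492.BB Pool.Agent.W550.Corr Pool.Agent.W484.TB

variable {k : Type u} [Field k] {𝒱 : VarClass k} {C : TheoryData.{u, v, 0} 𝒱 ℚ} {K : Type w}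
  [Field K] [CharZero K] {H : WeilTheoryData.{u, v, w} C K} [hC : IsChow C] [hH : IsWeil H]
  {A Z X Y : 𝒱.Obj}

/-- The products of `n` divisor classes on `A`. -/
def DivProd (C : TheoryData.{u, v, 0} 𝒱 ℚ) (A : 𝒱.Obj) (n : ℕ) : Set (C.A A) :=
  {D | ∃ L : List (C.A A), L.length = n ∧ (∀ x ∈ L, x ∈ C.gr A 1) ∧ D = L.prod}

variable (H) in
/-- The span of the classes of products of `n` divisors. -/
def NK (A : 𝒱.Obj) (n : ℕ) : Submodule K (H.A A) :=
  Submodule.span K {c | ∃ D ∈ DivProd C A n, c = H.cl D}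

omit hC hH in
theorem cl_smul (c : ℚ) (z : C.A X) : H.cl (c • z) = (c : K) • H.cl z := by
  have h1 : H.cl (algebraMap ℚ (C.A X) c) = algebraMap K (H.A X) (c : K) := by
    have h2 : (H.cl).comp (algebraMap ℚ (C.A X)) =
        (algebraMap K (H.A X)).comp (algebraMap ℚ K) := Subsingleton.elim _ _
    have h3 := RingHom.congr_fun h2 c
    rw [RingHom.comp_apply, RingHom.comp_apply, eq_ratCast (algebraMap ℚ K)] at h3
    exact h3
  rw [Algebra.smul_def, map_mul, h1, Algebra.smul_def]

theorem divProd_mem {n : ℕ} {D : C.A A} (hD : D ∈ DivProd C A n) : D ∈ C.gr A n := by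
  obtain ⟨L, hn, hL, rfl⟩ := hD
  induction L generalizing n with
  | nil =>
    simp only [List.length_nil] at hn
    subst hn
    simpa using C.one_mem A
  | cons a L ih =>
    simp only [List.length_cons] at hn
    subst hn
    rw [List.prod_cons]
    have h1 := C.mul_mem (hL a (by simp)) (ih rfl fun x hx => hL x (List.mem_cons_of_mem _ hx))
    rwa [show (1 : ℤ) + (L.length : ℤ) = ((L.length + 1 : ℕ) : ℤ) by push_cast; ring] at h1

omit hC hH in
theorem divProd_mul {m n : ℕ} {D D' : C.A A} (hD : D ∈ DivProd C A m) (hD' : D' ∈ DivProd C A n) :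
    D * D' ∈ DivProd C A (m + n) := by
  obtain ⟨L, hn, hL, rfl⟩ := hD
  obtain ⟨L', hn', hL', rfl⟩ := hD'
  refine ⟨L ++ L', by rw [List.length_append, hn, hn'], ?_, by rw [List.prod_append]⟩
  intro x hx
  rcases List.mem_append.1 hx with h | h
  · exact hL x h
  · exact hL' x h

omit hC hH in
theorem one_mem_NK : (1 : H.A A) ∈ NK H A 0 :=
  Submodule.subset_span ⟨1, ⟨[], rfl, by simp, by simp⟩, by rw [map_one]⟩

omit hC hH in
theorem mul_mem_NK {m n : ℕ} {a b : H.A A} (ha : a ∈ NK H A m) (hb : b ∈ NK H A n) :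
    a * b ∈ NK H A (m + n) := by
  unfold NK at ha
  induction ha using Submodule.span_induction with
  | mem a ha =>
    obtain ⟨D, hD, rfl⟩ := ha
    unfold NK at hb
    induction hb using Submodule.span_induction with
    | mem b hb =>
      obtain ⟨D', hD', rfl⟩ := hb
      exact Submodule.subset_span ⟨D * D', divProd_mul hD hD', by rw [map_mul]⟩
    | zero => rw [mul_zero]; exact Submodule.zero_mem _
    | add x y _ _ hx hy => rw [mul_add]; exact Submodule.add_mem _ hx hy
    | smul c x _ hx => rw [mul_smul_comm]; exact Submodule.smul_mem _ _ hx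
  | zero => rw [zero_mul]; exact Submodule.zero_mem _
  | add x y _ _ hx hy => rw [add_mul]; exact Submodule.add_mem _ hx hy
  | smul c x _ hx => rw [smul_mul_assoc]; exact Submodule.smul_mem _ _ hx

omit hC hH in
theorem mem_NK_one {c : H.A A} (hc : c ∈ Submodule.span K {c | ∃ D : C.A A, C.Deg 1 D ∧
    c = H.cl D}) : c ∈ NK H A 1 := by
  refine Submodule.span_mono ?_ hc
  rintro _ ⟨D, hD, rfl⟩
  exact ⟨D, ⟨[D], rfl, by simpa using hD, by simp⟩, rfl⟩

theorem NK_eigen {π : A ⟶ A} {Q : ℕ} (hπ : IsFrobenius C π Q) {n : ℕ} {c : H.A A}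
    (hc : c ∈ NK H A n) : H.pull π c = (Q : K) ^ n • c := by
  unfold NK at hc
  induction hc using Submodule.span_induction with
  | mem c hc =>
    obtain ⟨D, hD, rfl⟩ := hc
    have h1 : C.pull π D = (Q : ℚ) ^ n • D := hπ.chow n D (divProd_mem hD)
    rw [← H.cl_pull, h1, cl_smul]
    push_cast
    rfl
  | zero => rw [map_zero, smul_zero]
  | add x y _ _ hx hy => rw [map_add, hx, hy, smul_add]
  | smul a x _ hx => rw [map_smul, hx, smul_comm]

theorem push_frob {π : A ⟶ A} {Q : ℕ} (hπ : IsFrobenius C π Q) :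
    H.push π 1 = (Q : K) ^ A.dim • (1 : H.A A) := by
  have h1 : C.push π 1 = (Q : ℚ) ^ A.dim • (1 : C.A A) := hπ.degree
  have h2 := H.cl_push π 1
  rw [h1, cl_smul, map_one (H.cl (X := A))] at h2
  rw [← h2]
  push_cast
  rfl

theorem tr_frob {π : A ⟶ A} {Q : ℕ} (hπ : IsFrobenius C π Q) (c : H.A A) :
    H.tr A (H.pull π c) = (Q : K) ^ A.dim * H.tr A c := by
  have h1 := H.proj_right π 1 c
  rw [one_mul, push_frob hπ, smul_mul_assoc, one_mul] at h1
  rw [← H.tr_push π, h1, map_smul, smul_eq_mul]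

/-- Intersection numbers computed on `Z`. -/
theorem tr_eq_zero_of_push {a : H.A A} (Z : 𝒱.Obj)
    (h : H.push (snd A Z) (H.pull (fst A Z) a) = 0) : H.tr A a = 0 := by
  obtain ⟨z₀, -, hz₀, -⟩ := exists_deg_one C Z
  have h1 : H.tr (A.prod Z) (H.pull (fst A Z) a * H.pull (snd A Z) (H.cl z₀)) = H.tr A a := by
    rw [tr_fst, ← H.cl_pull, ← H.cl_push, hz₀ A, map_one, mul_one]
  rw [← h1, tr_snd, h, zero_mul, map_zero]

section basis

variable {π : A ⟶ A} {Q : ℕ} (hπ : IsFrobenius C π Q) (hQ : 1 < Q) {r : ℕ}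
  (b : Basis (Fin r) K (H.A A)) (α : Fin r → K) (hb : ∀ t, H.pull π (b t) = α t • b t)
  (h1 : ∀ t (c : ℤ), α t = (Q : K) ^ c → ∃ k : ℕ, α t = (Q : K) ^ k ∧ b t ∈ NK H A k)

include hπ hQ hb h1

/-- **The intersection pairing is nondegenerate.** -/
theorem NK_nondeg {n : ℕ} (hn : n ≤ A.dim) {c : H.A A} (hc : c ∈ NK H A n)
    (h : ∀ c' ∈ NK H A (A.dim - n), H.tr A (c * c') = 0) : c = 0 := by
  have hQK : (Q : K) ≠ 0 := by
    have : Q ≠ 0 := by omega
    exact_mod_cast this
  have hbt : ∀ t, H.tr A (c * b t) = 0 := by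
    intro t
    by_cases ht : α t = (Q : K) ^ (A.dim - n)
    · obtain ⟨m, hm, hbm⟩ := h1 t ((A.dim - n : ℕ) : ℤ) (by rw [zpow_natCast]; exact ht)
      have h2 : m = A.dim - n := by
        have h3 : ((Q ^ m : ℕ) : K) = ((Q ^ (A.dim - n) : ℕ) : K) := by
          push_cast
          rw [← hm, ht]
        exact Nat.pow_right_injective hQ (Nat.cast_injective h3)
      rw [h2] at hbm
      exact h _ hbm
    · have h2 := tr_frob hπ (c * b t)
      rw [map_mul, NK_eigen hπ hc, hb, smul_mul_smul_comm, map_smul, smul_eq_mul] at h2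
      have h3 : ((Q : K) ^ n * α t - (Q : K) ^ A.dim) * H.tr A (c * b t) = 0 := by
        rw [sub_mul, h2, sub_self]
      rcases mul_eq_zero.1 h3 with h4 | h4
      · exfalso
        apply ht
        have h5 : (Q : K) ^ n * (Q : K) ^ (A.dim - n) = (Q : K) ^ A.dim := by
          rw [← pow_add]
          congr 1
          omega
        rw [sub_eq_zero, ← h5] at h4
        exact mul_left_cancel₀ (pow_ne_zero _ hQK) h4
      · exact h4
  apply H.nondeg
  intro y
  have h2 : y = ∑ t, b.repr y t • b t := (b.sum_repr y).symm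
  rw [h2, Finset.mul_sum, map_sum]
  refine Finset.sum_eq_zero fun t _ => ?_
  rw [mul_smul_comm, map_smul, hbt, smul_zero]

end basis

end Pool.Agent.W484.CH
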