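import Mathlib
import Pool.Agent.W484.CH.NK

/-!
# Dual systems of products of divisors
-/

set_option autoImplicit false
set_option linter.unusedSectionVars false

open CategoryTheory AlgebraicGeometry

universe u v w

namespace Pool.Agent.W484.CH

open Module Polynomial Pool.Agent.H914 Pool.Agent.H914.VarClass Pool.Agent.H914.VarClass.Obj
  Pool.Agent.W492.BB Pool.Agent.W550.Corr Pool.Agent.W484.TB

variable {k : Type u} [Field k] {𝒱 : VarClass k} {C : TheoryData.{u, v, 0} 𝒱 ℚ} {K : Type w}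
  [Field K] [CharZero K] {H : WeilTheoryData.{u, v, w} C K} [hC : IsChow C] [hH : IsWeil H]
  (hS : IsStandard H) {A Z X Y : 𝒱.Obj}

include hS

/-- The degree of zero-cycles. -/
theorem exists_deg (A Z : 𝒱.Obj) : ∃ deg : C.A A →ₗ[ℚ] ℚ, ∀ z ∈ C.gr A A.dim,
    C.push (snd A Z) (C.pull (fst A Z) z) = deg z • 1 := by
  have h1 : (1 : C.A Z) ≠ 0 := by
    intro h0
    have := hS.nontrivial Z
    have h2 := congrArg (H.cl (X := Z)) h0
    rw [map_one, map_zero] at h2
    exact one_ne_zero h2
  have hker : LinearMap.ker (LinearMap.toSpanSingleton ℚ (C.A Z) 1) = ⊥ := by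
    rw [LinearMap.ker_eq_bot']
    intro c hc
    rw [LinearMap.toSpanSingleton_apply] at hc
    exact (smul_eq_zero.1 hc).resolve_right h1
  obtain ⟨φ, hφ⟩ := LinearMap.exists_leftInverse_of_injective _ hker
  refine ⟨φ ∘ₗ C.push (snd A Z) ∘ₗ (C.pull (fst A Z)).toLinearMap, fun z hz => ?_⟩
  have h2 := C.push_mem (snd A Z) (C.pull_mem (fst A Z) hz)
  have h3 : (A.dim : ℤ) + 1 * ((Z.dim : ℤ) - (A.prod Z).dim) = 0 := by
    rw [Obj.dim_prod]
    push_cast
    ring
  rw [h3] at h2
  obtain ⟨c, hc⟩ := hS.chow_zero _ _ h2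
  change C.push (snd A Z) (C.pull (fst A Z) z) = _ at hc
  have h4 : φ (C.push (snd A Z) (C.pull (fst A Z) z)) = c := by
    rw [hc]
    have h5 := LinearMap.congr_fun hφ c
    rw [LinearMap.comp_apply, LinearMap.toSpanSingleton_apply, LinearMap.id_apply] at h5
    exact h5
  change _ = φ (C.push (snd A Z) (C.pull (fst A Z) z)) • (1 : C.A Z)
  rw [h4, hc]

variable {π : A ⟶ A} {Q : ℕ} (hπ : IsFrobenius C π Q) (hQ : 1 < Q) {r : ℕ}
  (b : Basis (Fin r) K (H.A A)) (α : Fin r → K) (hb : ∀ t, H.pull π (b t) = α t • b t)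
  (h1 : ∀ t (c : ℤ), α t = (Q : K) ^ c → ∃ k : ℕ, α t = (Q : K) ^ k ∧ b t ∈ NK H A k)

include hπ hQ hb h1

/-- The dual system in one codimension. -/
theorem exists_dual_one (Z : 𝒱.Obj) {n : ℕ} (hn : n ≤ A.dim) :
    ∃ (m : ℕ) (D E : Fin m → C.A A), (∀ t, D t ∈ DivProd C A n) ∧
      (∀ t, E t ∈ C.gr A (A.dim - n : ℕ)) ∧
      (∀ t u, C.push (snd A Z) (C.pull (fst A Z) (D t * E u)) = if t = u then 1 else 0) ∧
      NK H A n ≤ Submodule.span K (Set.range fun t => H.cl (D t)) := by
  classical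
  have := hS.finite A
  obtain ⟨deg, hdeg⟩ := exists_deg hS A Z
  -- a basis of classes
  obtain ⟨S, hS1, hS2, hS3⟩ := exists_linearIndependent K {c | ∃ D ∈ DivProd C A n, c = H.cl D}
  have hfin : S.Finite := hS3.setFinite
  have hft := hfin.fintype
  let e := Fintype.equivFin S
  have hD : ∀ t : Fin (Fintype.card S), ∃ D ∈ DivProd C A n, (e.symm t : H.A A) = H.cl D :=
    fun t => hS1 (e.symm t).2
  choose D hDm hDcl using hD
  have hDg : ∀ t, D t ∈ C.gr A n := fun t => divProd_mem (hDm t)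
  have hli : LinearIndependent K (fun t => H.cl (D t)) := by
    have h2 : (fun t => H.cl (D t)) = (fun x : S => (x : H.A A)) ∘ e.symm := by
      funext t
      exact (hDcl t).symm
    rw [h2]
    exact hS3.comp _ e.symm.injective
  have hspan : NK H A n ≤ Submodule.span K (Set.range fun t => H.cl (D t)) := by
    unfold NK
    rw [← hS2]
    refine Submodule.span_mono ?_
    intro x hx
    refine ⟨e ⟨x, hx⟩, ?_⟩
    beta_reduce
    rw [← hDcl, Equiv.symm_apply_apply]
  -- the pairing
  let 𝒮 : Submodule ℚ (C.A A) := Submodule.span ℚ (DivProd C A (A.dim - n))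
  have h𝒮 : 𝒮 ≤ C.gr A (A.dim - n : ℕ) := Submodule.span_le.2 fun x hx => divProd_mem hx
  let ψ : 𝒮 →ₗ[ℚ] (Fin (Fintype.card S) → ℚ) :=
    LinearMap.pi fun t => deg ∘ₗ LinearMap.mulLeft ℚ (D t) ∘ₗ 𝒮.subtype
  have hψ : ∀ E t, ψ E t = deg (D t * E) := fun _ _ => rfl
  have hmem : ∀ t (E : 𝒮), D t * E ∈ C.gr A A.dim := by
    intro t E
    have h2 := C.mul_mem (hDg t) (h𝒮 E.2)
    rwa [show (n : ℤ) + ((A.dim - n : ℕ) : ℤ) = A.dim by omega] at h2
  have hsurj : LinearMap.range ψ = ⊤ := by
    by_contra hne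
    obtain ⟨f, hf0, hf⟩ := Submodule.exists_le_ker_of_lt_top _ (lt_top_iff_ne_top.2 hne)
    apply hf0
    -- the class
    set c : H.A A := ∑ t, ((f (Pi.single t 1) : ℚ) : K) • H.cl (D t) with hc
    set z : C.A A := ∑ t, f (Pi.single t 1) • D t with hz
    have hcz : c = H.cl z := by
      rw [hc, hz, map_sum]
      exact Finset.sum_congr rfl fun t _ => (cl_smul _ _).symm
    have hcm : c ∈ NK H A n :=
      Submodule.sum_mem _ fun t _ => Submodule.smul_mem _ _ (Submodule.subset_span
        ⟨D t, hDm t, rfl⟩)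
    have hc0 : c = 0 := by
      refine NK_nondeg hπ hQ b α hb h1 hn hcm ?_
      intro c' hc'
      unfold NK at hc'
      induction hc' using Submodule.span_induction with
      | mem c' hc' =>
        obtain ⟨E, hE, rfl⟩ := hc'
        apply tr_eq_zero_of_push Z
        rw [hcz, ← map_mul, ← H.cl_pull, ← H.cl_push]
        have hE' : E ∈ 𝒮 := Submodule.subset_span hE
        have h2 : C.push (snd A Z) (C.pull (fst A Z) (z * E)) = 0 := by
          have h3 : z * E ∈ C.gr A A.dim := by
            rw [hz, Finset.sum_mul]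
            refine Submodule.sum_mem _ fun t _ => ?_
            rw [smul_mul_assoc]
            exact Submodule.smul_mem _ _ (hmem t ⟨E, hE'⟩)
          rw [hdeg _ h3]
          have h4 : f (ψ ⟨E, hE'⟩) = 0 := hf ⟨_, rfl⟩
          have h5 : deg (z * E) = f (ψ ⟨E, hE'⟩) := by
            have h6 : ψ ⟨E, hE'⟩ = ∑ t, deg (D t * E) • Pi.single (M := fun _ => ℚ) t 1 := by
              funext t
              rw [hψ, Finset.sum_apply]
              simp [Pi.single_apply]
            rw [h6, map_sum, hz, Finset.sum_mul, map_sum]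
            refine Finset.sum_congr rfl fun t _ => ?_
            rw [smul_mul_assoc, map_smul, map_smul, smul_eq_mul, smul_eq_mul, mul_comm]
          rw [h5, h4, zero_smul]
        rw [h2, map_zero]
      | zero => rw [mul_zero, map_zero]
      | add x y _ _ hx hy => rw [mul_add, map_add, hx, hy, add_zero]
      | smul a x _ hx => rw [mul_smul_comm, map_smul, hx, smul_zero]
    have h2 := Fintype.linearIndependent_iff.1 hli (fun t => ((f (Pi.single t 1) : ℚ) : K))
      (by rw [← hc, hc0])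
    ext t
    have h3 := h2 t
    have h4 : f (Pi.single t 1) = 0 := by exact_mod_cast h3
    simpa using h4
  have hE : ∀ u, ∃ E : 𝒮, ψ E = Pi.single u 1 := by
    intro u
    have h2 : (Pi.single u 1 : Fin (Fintype.card S) → ℚ) ∈ LinearMap.range ψ := by
      rw [hsurj]
      exact Submodule.mem_top
    exact h2
  choose E hE using hE
  refine ⟨Fintype.card S, D, fun u => E u, hDm, fun u => h𝒮 (E u).2, fun t u => ?_, hspan⟩
  rw [hdeg _ (hmem t (E u)), ← hψ, hE, Pi.single_apply]
  split_ifs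
  · rw [one_smul]
  · rw [zero_smul]

/-- **The dual system.** -/
theorem exists_dual (Z : 𝒱.Obj) : ∃ (J : Type) (_ : Fintype J) (deg : J → ℕ) (D E : J → C.A A),
    IsDual A Z deg D E ∧ (∀ j, D j ∈ DivProd C A (deg j)) ∧
    ∀ n, NK H A n ≤ Submodule.span K {c | ∃ j, deg j = n ∧ c = H.cl (D j)} := by
  classical
  choose m D E hD hE hDE hspan using fun n : Fin (A.dim + 1) =>
    exists_dual_one hS hπ hQ b α hb h1 Z (n := n) (by omega)
  refine ⟨Σ n : Fin (A.dim + 1), Fin (m n), inferInstance, fun j => j.1, fun j => D j.1 j.2,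
    fun j => E j.1 j.2, ⟨fun j => by omega, fun j => divProd_mem (hD j.1 j.2), fun j => ?_,
    fun j => ?_, fun i j hij => ?_⟩, fun j => hD j.1 j.2, fun n => ?_⟩
  · have h2 := hE j.1 j.2
    have h3 : ((A.dim - (j.1 : ℕ) : ℕ) : ℤ) = (A.dim : ℤ) - (j.1 : ℕ) := by omega
    rw [h3] at h2
    exact h2
  · rw [hDE, if_pos rfl]
  · have hDi := divProd_mem (hD i.1 i.2)
    by_cases h2 : i.1 = j.1
    · obtain ⟨n, t⟩ := i
      obtain ⟨n', u⟩ := j
      dsimp only at h2
      subst h2
      rw [hDE, if_neg]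
      intro h3
      dsimp only at h3
      subst h3
      exact hij rfl
    · have h3 := C.mul_mem hDi (hE j.1 j.2)
      rcases lt_or_gt_of_ne h2 with h4 | h4
      · have h5 := C.push_mem (snd A Z) (C.pull_mem (fst A Z) h3)
        rw [C.gr_neg _ _ (by
          rw [Obj.dim_prod]
          push_cast
          have : (i.1 : ℕ) < (j.1 : ℕ) := h4
          omega)] at h5
        exact (Submodule.mem_bot _).1 h5
      · rw [hS.chow_top _ _ (by
          have : (j.1 : ℕ) < (i.1 : ℕ) := h4
          omega)] at h3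
        rw [(Submodule.mem_bot _).1 h3, map_zero, map_zero]
  · rcases Nat.lt_or_ge A.dim n with h2 | h2
    · have h3 : NK H A n ≤ ⊥ := by
        refine Submodule.span_le.2 ?_
        rintro _ ⟨D', hD', rfl⟩
        have h4 := divProd_mem hD'
        rw [hS.chow_top _ _ (by exact_mod_cast h2)] at h4
        rw [(Submodule.mem_bot _).1 h4, map_zero]
        exact Submodule.zero_mem _
      exact h3.trans bot_le
    · refine (hspan ⟨n, by omega⟩).trans (Submodule.span_mono ?_)
      rintro _ ⟨t, rfl⟩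
      exact ⟨⟨⟨n, by omega⟩, t⟩, rfl, rfl⟩

end Pool.Agent.W484.CH
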