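import Mathlib
import Pool.Agent.W484.CH.Defs

/-!
# Products of eigenvectors, with degrees
-/

set_option autoImplicit false
set_option linter.unusedSectionVars false

namespace Pool.Agent.W484.CH

open Polynomial Module Pool.Agent.W484.AA Pool.Agent.W484.BB Pool.Agent.W484.HS

section abs

variable {K : Type*} [Field K] {R : Type*} [Ring R] [Algebra K R]
variable {X : Type*} (G : R →ₐ[K] R) (val : X → K)

/-- **The induction.** -/
theorem list_graded (Q ρ : K) (hQ : Q ≠ 0)
    (hpair : ExactPairK val Q ρ) (M : ℕ → Submodule K R) (h1 : (1 : R) ∈ M 0)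
    (hmul : ∀ a ∈ M 1, ∀ (k : ℕ), ∀ b ∈ M k, a * b ∈ M (k + 1)) (U : Set R)
    (hanti : ∀ a ∈ U, ∀ b ∈ U, a * b = -(b * a))
    (h2 : ∀ a ∈ U, ∀ b ∈ U, ∀ x y, G a = val x • a → G b = val y • b → val x * val y = Q →
      a * b ∈ M 1) :
    ∀ (n : ℕ) (c : ℤ) (s : ℕ), 0 < s → ∀ L : List (R × X), L.length = n →
      (∀ e ∈ L, e.1 ∈ U ∧ G e.1 = val e.2 • e.1) →
      ((L.map (fun e => val e.2)).prod * ρ) ^ s = (Q ^ c) ^ s →
      ∃ k : ℕ, n = 2 * k ∧ (L.map (fun e => val e.2)).prod = Q ^ k ∧
        (L.map Prod.fst).prod ∈ M k := by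
  intro n
  induction n using Nat.strong_induction_on with
  | _ n ih =>
    intro c s hs L hlen hL hrel
    rcases Nat.eq_zero_or_pos n with hn | hn
    · subst hn
      have hL0 : L = [] := List.length_eq_zero_iff.1 hlen
      subst hL0
      exact ⟨0, rfl, by simp, by simpa using h1⟩
    · have h3 := hpair n c s hs hn (L.map Prod.snd) (by rw [List.length_map, hlen]) (by
        rw [List.map_map]
        exact hrel)
      rw [List.pairwise_map] at h3
      obtain ⟨e, e', L', hperm, hgood⟩ := exists_of_not_pairwise _ L h3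
      rw [not_not] at hgood
      have heL : e ∈ L := hperm.mem_iff.2 (by simp)
      have heL' : e' ∈ L := hperm.mem_iff.2 (by simp)
      have hlen' : n = L'.length + 2 := by
        have h2 := hperm.length_eq
        rw [List.length_cons, List.length_cons, hlen] at h2
        omega
      obtain ⟨b', hb'⟩ := prod_perm_anti (K := K) (hperm.map Prod.fst) (by
        intro a ha b hb
        rw [List.mem_map] at ha hb
        obtain ⟨e₁, he₁, rfl⟩ := ha
        obtain ⟨e₂, he₂, rfl⟩ := hb
        exact hanti _ (hL e₁ he₁).1 _ (hL e₂ he₂).1)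
      have h3 : (L.map (fun e => val e.2)).prod = Q * (L'.map (fun e => val e.2)).prod := by
        rw [(hperm.map (fun e => val e.2)).prod_eq, List.map_cons, List.prod_cons,
          List.map_cons, List.prod_cons, ← mul_assoc, hgood]
      obtain ⟨k, hk, hkv, h5⟩ := ih L'.length (by omega) (c - 1) s hs L' rfl
        (fun e₁ he₁ => hL e₁ (hperm.mem_iff.2
          (List.mem_cons_of_mem _ (List.mem_cons_of_mem _ he₁)))) (by
        have h6 : Q ^ c = Q * Q ^ (c - 1) := by
          rw [← zpow_one_add₀ hQ]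
          congr 1
          ring
        rw [h3, h6, mul_assoc, mul_pow, mul_pow Q] at hrel
        exact mul_left_cancel₀ (pow_ne_zero _ hQ) hrel)
      refine ⟨k + 1, by omega, by rw [h3, hkv, pow_succ'], ?_⟩
      rw [hb']
      refine Submodule.smul_mem _ _ ?_
      rw [List.map_cons, List.prod_cons, List.map_cons, List.prod_cons, ← mul_assoc]
      exact hmul _ (h2 _ (hL e heL).1 _ (hL e' heL').1 _ _ (hL e heL).2 (hL e' heL').2 hgood) _ _ h5

/-- A basis of products of eigenvectors, with their eigenvalues. -/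
theorem exists_basis [Module.Finite K R] (U : Submodule K R)
    (hU : Submodule.span K {v : R | v ∈ U ∧ ∃ x, G v = val x • v} = U)
    (hgen : Algebra.adjoin K (U : Set R) = ⊤) :
    ∃ (r : ℕ) (b : Basis (Fin r) K R) (α : Fin r → K), ∀ t, G (b t) = α t • b t ∧
      ∃ L : List (R × X), (∀ e ∈ L, e.1 ∈ U ∧ G e.1 = val e.2 • e.1) ∧
        b t = (L.map Prod.fst).prod ∧ α t = (L.map (fun e => val e.2)).prod := by
  obtain ⟨r, b, hb⟩ := exists_list_basis G val U hU hgen
  choose L hL hbL using hb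
  refine ⟨r, b, fun t => ((L t).map (fun e => val e.2)).prod, fun t => ⟨?_, L t, hL t, hbL t, rfl⟩⟩
  rw [hbL t]
  exact Pool.Agent.W484.HS.map_list_prod G val (L t) fun e he => (hL t e he).2

end abs

section nil

variable {K : Type*} [Field K] {V : Type*} [AddCommGroup V] [Module K V]

/-- If `(α φ - μ) ^ m` kills a nonzero vector and `μ ≠ 0`, then `α ≠ 0` and `μ / α` is an
eigenvalue of `φ`. -/
theorem exists_eigen (φ : V →ₗ[K] V) (α μ : K) (hμ : μ ≠ 0) (m : ℕ) (h : V) (h0 : h ≠ 0)
    (hh : ((α • φ - μ • (1 : Module.End K V)) ^ m) h = 0) :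
    α ≠ 0 ∧ ∃ v : V, v ≠ 0 ∧ φ v = (μ / α) • v := by
  have hα : α ≠ 0 := by
    rintro rfl
    rw [zero_smul, zero_sub, ← neg_smul, _root_.smul_pow, one_pow, LinearMap.smul_apply,
      Module.End.one_apply] at hh
    exact (smul_ne_zero (pow_ne_zero _ (neg_ne_zero.2 hμ)) h0) hh
  refine ⟨hα, ?_⟩
  classical
  have hex : ∃ m : ℕ, ((α • φ - μ • (1 : Module.End K V)) ^ m) h = 0 := ⟨m, hh⟩
  have h1 := Nat.find_spec hex
  have h2 : 0 < Nat.find hex := by
    rw [Nat.pos_iff_ne_zero]
    intro h3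
    rw [h3, pow_zero] at h1
    exact h0 h1
  obtain ⟨m', hm'⟩ := Nat.exists_eq_succ_of_ne_zero h2.ne'
  have h3 : ((α • φ - μ • (1 : Module.End K V)) ^ m') h ≠ 0 :=
    Nat.find_min hex (by omega)
  refine ⟨_, h3, ?_⟩
  rw [hm', Nat.succ_eq_add_one, pow_succ', Module.End.mul_apply, LinearMap.sub_apply,
    LinearMap.smul_apply, LinearMap.smul_apply, Module.End.one_apply, sub_eq_zero] at h1
  rw [div_eq_inv_mul, mul_smul, ← h1, smul_smul, inv_mul_cancel₀ hα, one_smul]

end nil

end Pool.Agent.W484.CH
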