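import Mathlib
import Pool.Agent.W484.CH.Dual
import Pool.Agent.W484.CH.Eig

/-!
# Generalized eigenvectors on the product
-/

set_option autoImplicit false
set_option linter.unusedSectionVars false

open CategoryTheory AlgebraicGeometry

universe u v w

namespace Pool.Agent.W484.CH

open Module Polynomial Pool.Agent.H914 Pool.Agent.H914.VarClass Pool.Agent.H914.VarClass.Obj
  Pool.Agent.W492.BB Pool.Agent.W550.Corr Pool.Agent.W484.TB

variable {k : Type u} [Field k] {𝒱 : VarClass k} {C : TheoryData.{u, v, 0} 𝒱 ℚ} {K : Type w}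
  [Field K] [CharZero K] {H : WeilTheoryData.{u, v, w} C K} [hC : IsChow C] [hH : IsWeil H]
  (hS : IsStandard H) {A Z X Y : 𝒱.Obj}

variable (H) in
/-- The span of the external products of classes generated by divisors and arbitrary classes. -/
noncomputable def mix (A Z : 𝒱.Obj) : Submodule K (H.A (A.prod Z)) :=
  Submodule.span K {c | ∃ (n : ℕ) (a : H.A A) (h : H.A Z), a ∈ NK H A n ∧ c = H.ext a h}

theorem pull_prodMap_ext (f : A ⟶ A) (g : Z ⟶ Z) (a : H.A A) (h : H.A Z) :
    H.pull (prodMap f g) (H.ext a h) = H.ext (H.pull f a) (H.pull g h) := by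
  rw [TheoryData.ext, map_mul, ← H.pull_comp, ← H.pull_comp, prodMap_fst, prodMap_snd,
    H.pull_comp, H.pull_comp]
  rfl

/-- The pull-back as an endomorphism. -/
noncomputable def frob {X : 𝒱.Obj} (H : WeilTheoryData.{u, v, w} C K) (π : X ⟶ X) :
    Module.End K (H.A X) := (H.pull π).toLinearMap

theorem act_cl_iter {X : 𝒱.Obj} (π : X ⟶ X) (l : ℕ) (w : H.A X) :
    H.act (H.cl (C.cograph (iter π l))) w = (frob H π ^ l) w := by
  rw [act_cl_cograph]
  induction l generalizing w with
  | zero =>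
    rw [pow_zero, iter, H.pull_id]
    rfl
  | succ l ih =>
    rw [iter, H.pull_comp, ih, pow_succ, Module.End.mul_apply]
    rfl

/-- The polynomial in the Frobenius correspondence acts as the polynomial in the Frobenius. -/
theorem act_cl_polyC {X : 𝒱.Obj} (π : X ⟶ X) (P : ℚ[X]) (w : H.A X) :
    H.act (H.cl (polyC π P)) w = (aeval (frob H π) (P.map (algebraMap ℚ K))) w := by
  have h1 : H.cl (polyC π P) = ∑ l ∈ P.support, (P.coeff l : K) •
      H.cl (C.cograph (iter π l)) := by
    rw [polyC, map_sum]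
    exact Finset.sum_congr rfl fun l _ => cl_smul _ _
  rw [h1, act_sum, aeval_eq_sum_range' (n := P.natDegree + 1) (by
    rw [natDegree_map]
    omega), LinearMap.sum_apply]
  have h2 : ∀ l, H.act ((P.coeff l : K) • H.cl (C.cograph (iter π l))) w =
      (((P.map (algebraMap ℚ K)).coeff l • frob H π ^ l) w) := by
    intro l
    rw [LinearMap.smul_apply, ← act_cl_iter, coeff_map, eq_ratCast, H.act_apply, smul_mul_assoc,
      map_smul]
    rfl
  rw [Finset.sum_congr rfl fun l _ => h2 l]
  refine Finset.sum_subset ?_ ?_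
  · intro l hl
    rw [Finset.mem_range]
    have := le_natDegree_of_mem_supp l hl
    omega
  · intro l _ hl
    rw [coeff_map, notMem_support_iff.1 hl, map_zero, zero_smul, LinearMap.zero_apply]

/-- The power `(φ - μ) ^ m`. -/
def op {V : Type*} [AddCommGroup V] [Module K V] (φ : Module.End K V) (μ : K) (m : ℕ) :
    Module.End K V :=
  (φ - μ • (1 : Module.End K V)) ^ m

section basis

variable {πA : A ⟶ A} {πZ : Z ⟶ Z} {Q : ℕ} {r : ℕ}
  (b : Basis (Fin r) K (H.A A)) (α : Fin r → K) (hb : ∀ t, H.pull πA (b t) = α t • b t)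

include hb in
theorem pow_components (μ : K) (m : ℕ) (h : Fin r → H.A Z) :
    op (frob H (prodMap πA πZ)) μ m (∑ t, H.ext (b t) (h t)) =
      ∑ t, H.ext (b t) (op (α t • frob H πZ) μ m (h t)) := by
  induction m generalizing h with
  | zero => simp [op]
  | succ m ih =>
    unfold op at ih ⊢
    have h1 : (frob H (prodMap πA πZ) - μ • (1 : Module.End K (H.A (A.prod Z))))
        (∑ t, H.ext (b t) (h t)) =
        ∑ t, H.ext (b t) ((α t • frob H πZ - μ • (1 : Module.End K (H.A Z))) (h t)) := by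
      rw [map_sum]
      refine Finset.sum_congr rfl fun t _ => ?_
      rw [LinearMap.sub_apply, LinearMap.smul_apply, Module.End.one_apply, LinearMap.sub_apply,
        LinearMap.smul_apply, LinearMap.smul_apply, Module.End.one_apply]
      have h2 : frob H (prodMap πA πZ) (H.ext (b t) (h t)) =
          H.ext (b t) (α t • frob H πZ (h t)) := by
        change H.pull (prodMap πA πZ) _ = _
        rw [pull_prodMap_ext, hb, ext_smul_left]
        rfl
      rw [h2, sub_eq_add_neg, sub_eq_add_neg, ext_add_right, ← neg_smul, ← neg_smul,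
        ext_smul_right (-μ)]
    rw [pow_succ, Module.End.mul_apply, h1, ih]
    refine Finset.sum_congr rfl fun t _ => ?_
    rw [pow_succ, Module.End.mul_apply]

include hS hb in
/-- **Generalized eigenvectors lie in the mixed part.** -/
theorem mem_mix (hQ : Q ≠ 0) (i : ℤ)
    (h2 : ∀ t (ρ : K) (v : H.A Z), v ≠ 0 → H.pull πZ v = ρ • v → α t * ρ = (Q : K) ^ i →
      ∃ n : ℕ, b t ∈ NK H A n) (m : ℕ) (w : H.A (A.prod Z))
    (hw : op (frob H (prodMap πA πZ)) ((Q : K) ^ i) m w = 0) :
    w ∈ mix H A Z := by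
  obtain ⟨h, rfl⟩ := kunneth_exists b w
  rw [pow_components b α hb] at hw
  have h3 := kunneth_unique hS b _ hw
  refine Submodule.sum_mem _ fun t _ => ?_
  by_cases h0 : h t = 0
  · rw [h0]
    rw [TheoryData.ext, map_zero, mul_zero]
    exact Submodule.zero_mem _
  have hQK : (Q : K) ≠ 0 := by exact_mod_cast hQ
  obtain ⟨hα, v, hv0, hv⟩ := exists_eigen (frob H πZ) (α t) ((Q : K) ^ i) (zpow_ne_zero _ hQK) m
    (h t) h0 (h3 t)
  obtain ⟨n, hn⟩ := h2 t _ v hv0 hv (mul_div_cancel₀ _ hα)
  exact Submodule.subset_span ⟨n, b t, h t, hn, rfl⟩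

include hS hb in
/-- Eigenvalues on the product are algebraic. -/
theorem integral_eigen (hα : ∀ t, IsIntegral ℚ (α t))
    (hZ : ∀ (ρ : K) (v : H.A Z), v ≠ 0 → H.pull πZ v = ρ • v → IsIntegral ℚ ρ)
    (μ : K) (w : H.A (A.prod Z)) (hw0 : w ≠ 0) (hw : H.pull (prodMap πA πZ) w = μ • w) :
    IsIntegral ℚ μ := by
  by_cases hμ : μ = 0
  · rw [hμ]
    exact isIntegral_zero
  obtain ⟨h, rfl⟩ := kunneth_exists b w
  have h1 : op (frob H (prodMap πA πZ)) μ 1 (∑ t, H.ext (b t) (h t)) = 0 := by
    rw [op, pow_one, LinearMap.sub_apply, LinearMap.smul_apply, Module.End.one_apply, sub_eq_zero]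
    exact hw
  rw [pow_components b α hb] at h1
  have h3 := kunneth_unique hS b _ h1
  obtain ⟨t, ht⟩ : ∃ t, h t ≠ 0 := by
    by_contra hall
    push Not at hall
    apply hw0
    refine Finset.sum_eq_zero fun t _ => ?_
    rw [hall t, TheoryData.ext, map_zero, mul_zero]
  obtain ⟨hα0, v, hv0, hv⟩ := exists_eigen (frob H πZ) (α t) μ hμ 1 (h t) ht (h3 t)
  have h4 := hZ _ v hv0 hv
  have h5 := (hα t).mul h4
  rwa [mul_div_cancel₀ _ hα0] at h5

/-- The polynomial. -/
theorem exists_poly {V : Type*} [AddCommGroup V] [Module K V] [FiniteDimensional K V]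
    [IsAlgClosed K] (φ : Module.End K V) (μ₀ : ℚ)
    (hφ : ∀ (μ : K) (v : V), v ≠ 0 → φ v = μ • v → IsIntegral ℚ μ) :
    ∃ P : ℚ[X], P.eval μ₀ ≠ 0 ∧ ∃ m : ℕ, ∀ w : V,
      op φ (μ₀ : K) m ((aeval φ (P.map (algebraMap ℚ K))) w) = 0 := by
  classical
  have hroot : ∀ μ ∈ φ.charpoly.roots, IsIntegral ℚ μ := by
    intro μ hμ
    rw [mem_roots φ.charpoly_monic.ne_zero] at hμ
    obtain ⟨v, hv⟩ := ((Module.End.hasEigenvalue_iff_isRoot_charpoly φ μ).2 hμ).exists_hasEigenvector
    exact hφ μ v hv.2 hv.apply_eq_smul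
  set R := φ.charpoly.roots with hR
  set P : ℚ[X] := ((R.filter (fun μ => μ ≠ (μ₀ : K))).map (fun μ => minpoly ℚ μ)).prod with hP
  refine ⟨P, ?_, (R.filter (fun μ => μ = (μ₀ : K))).card, fun w => ?_⟩
  · rw [hP, Polynomial.eval_multiset_prod, Multiset.map_map]
    apply Multiset.prod_ne_zero
    rw [Multiset.mem_map]
    rintro ⟨μ, hμ, h0⟩
    rw [Multiset.mem_filter] at hμ
    have hint := hroot μ hμ.1
    have h2 : (X - Polynomial.C μ₀ : ℚ[X]) ∣ minpoly ℚ μ := dvd_iff_isRoot.2 h0
    have h3 := (irreducible_X_sub_C μ₀).dvd_symm (minpoly.irreducible hint) h2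
    have h4 := aeval_eq_zero_of_dvd_aeval_eq_zero h3 (minpoly.aeval ℚ μ)
    rw [map_sub, aeval_X, aeval_C, eq_ratCast, sub_eq_zero] at h4
    exact hμ.2 h4
  · set c := (R.filter (fun μ => μ = (μ₀ : K))).card with hc
    have h1 : φ.charpoly = (R.map (fun μ => X - Polynomial.C μ)).prod :=
      (IsAlgClosed.splits φ.charpoly).eq_prod_roots_of_monic φ.charpoly_monic
    have h2 : (R.map (fun μ => X - Polynomial.C μ)).prod =
        (X - Polynomial.C (μ₀ : K)) ^ c *
          ((R.filter (fun μ => μ ≠ (μ₀ : K))).map (fun μ => X - Polynomial.C μ)).prod := by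
      conv_lhs => rw [← Multiset.filter_add_not (fun μ => μ = (μ₀ : K)) R]
      rw [Multiset.map_add, Multiset.prod_add]
      congr 1
      have h3 : (R.filter (fun μ => μ = (μ₀ : K))).map (fun μ => X - Polynomial.C μ) =
          (R.filter (fun μ => μ = (μ₀ : K))).map (fun _ => X - Polynomial.C (μ₀ : K)) := by
        refine Multiset.map_congr rfl fun μ hμ => ?_
        rw [(Multiset.mem_filter.1 hμ).2]
      rw [h3, Multiset.map_const', Multiset.prod_replicate]
    have h3 : ((R.filter (fun μ => μ ≠ (μ₀ : K))).map (fun μ => X - Polynomial.C μ)).prod ∣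
        P.map (algebraMap ℚ K) := by
      rw [hP, Polynomial.map_multiset_prod, Multiset.map_map]
      refine Multiset.prod_dvd_prod_of_dvd _ _ fun μ hμ => ?_
      rw [Function.comp_apply, dvd_iff_isRoot, IsRoot.def, Polynomial.eval_map, ← aeval_def]
      exact minpoly.aeval ℚ μ
    have h4 : φ.charpoly ∣ (X - Polynomial.C (μ₀ : K)) ^ c * P.map (algebraMap ℚ K) := by
      rw [h1, h2]
      exact mul_dvd_mul_left _ h3
    obtain ⟨g, hg⟩ := h4
    have h5 : aeval φ ((X - Polynomial.C (μ₀ : K)) ^ c * P.map (algebraMap ℚ K)) = 0 := by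
      rw [hg, map_mul, LinearMap.aeval_self_charpoly, zero_mul]
    have h6 := LinearMap.congr_fun h5 w
    rw [map_mul, Module.End.mul_apply, LinearMap.zero_apply, map_pow, map_sub, aeval_X,
      aeval_C, Algebra.algebraMap_eq_smul_one] at h6
    exact h6

end basis

end Pool.Agent.W484.CH
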