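import Mathlib
import Pool.Agent.W484.CH.Gen

/-!
# The Kunneth formula for products with almost all abelian varieties
-/

set_option autoImplicit false
set_option linter.unusedSectionVars false

open CategoryTheory AlgebraicGeometry

universe u v w

namespace Pool.Agent.W484.CH

open Module Polynomial Pool.Agent.H914 Pool.Agent.H914.VarClass Pool.Agent.H914.VarClass.Obj
  Pool.Agent.W492.BB Pool.Agent.W550.Corr Pool.Agent.W484.TB Pool.Agent.W484.HS
  Pool.Agent.W521.Frob Pool.Agent.W521.Count Pool.Agent.W521.Bad Pool.Agent.W521.Descent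
  Pool.Agent.W521.Density

section defs

variable {k : Type u} [Field k] {𝒱 : VarClass k} {C : TheoryData.{u, v, 0} 𝒱 ℚ}

/-- The Kunneth formula for the theory `T` and the product `A × Z` with the classes `D j` on `A`:
every element of `M^i(A × Z)` can be written in a unique way as the sum of the products of the
`D j` with elements `z j` of `M^(i - deg j)(Z)`. -/
def HasKunneth (T : CorrData C) (A Z : 𝒱.Obj) {J : Type} [Fintype J] (deg : J → ℕ)
    (D : J → C.A A) : Prop :=
  ∀ (i : ℤ) (m : T.M (A.prod Z)), T.Deg i m → ∃! z : J → T.M Z,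
    (∀ j, T.Deg (i - deg j) (z j)) ∧ m = ∑ j, T.app (extBy C Z (D j)) (z j)

end defs

variable {k : Type u} [Field k] {𝒱 : VarClass k} {C : TheoryData.{u, v, 0} 𝒱 ℚ} {K : Type w}
  [Field K] [CharZero K] {H : WeilTheoryData.{u, v, w} C K} [hC : IsChow C] [hH : IsWeil H]
  {A Z X Y : 𝒱.Obj}

theorem cl_extBy (b : C.A A) : H.cl (extBy C Z b) = extBy H.toTheoryData Z (H.cl b) := by
  rw [extBy, extBy, H.cl_push, H.cl_pull]

section dual

variable {J : Type} [Fintype J] {deg : J → ℕ} {D E : J → C.A A} (h : IsDual A Z deg D E)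
  (hN : ∀ n, NK H A n ≤ Submodule.span K {c | ∃ j, deg j = n ∧ c = H.cl (D j)})

include h in
theorem act_proj_ext (j : J) (y : H.A Z) :
    H.act (H.cl (proj Z D E)) (H.ext (H.cl (D j)) y) = H.ext (H.cl (D j)) y := by
  classical
  have h1 : H.ext (H.cl (D j)) y = H.act (H.cl (extBy C Z (D j))) y := by
    rw [cl_extBy, act_extBy]
  rw [h1, proj, map_sum, act_sum]
  have h2 : ∀ l, H.act (H.cl (C.comp (pairBy C Z (E l)) (extBy C Z (D l))))
      (H.act (H.cl (extBy C Z (D j))) y) =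
      if l = j then H.act (H.cl (extBy C Z (D j))) y else 0 := by
    intro l
    rw [act_cl_comp, ← act_cl_comp (extBy C Z (D j))]
    by_cases hl : l = j
    · subst hl
      rw [comp_extBy_same h, act_cl_dg, if_pos rfl]
    · rw [comp_extBy_ne h j l (Ne.symm hl), map_zero, H.act_zero, H.act_map_zero, if_neg hl]
  rw [Finset.sum_congr rfl fun l _ => h2 l, Finset.sum_ite_eq', if_pos (Finset.mem_univ _)]

include h hN in
theorem act_proj_mix {w : H.A (A.prod Z)} (hw : w ∈ mix H A Z) :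
    H.act (H.cl (proj Z D E)) w = w := by
  unfold mix at hw
  induction hw using Submodule.span_induction with
  | mem w hw =>
    obtain ⟨n, a, y, ha, rfl⟩ := hw
    have ha' := hN n ha
    clear ha
    induction ha' using Submodule.span_induction with
    | mem a ha =>
      obtain ⟨j, -, rfl⟩ := ha
      exact act_proj_ext h j y
    | zero => rw [TheoryData.ext, map_zero, zero_mul, H.act_map_zero]
    | add a a' _ _ ha ha' => rw [ext_add_left, act_map_add, ha, ha']
    | smul c a _ ha => rw [ext_smul_left, ext_smul_right, act_map_smul, ha]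
  | zero => rw [H.act_map_zero]
  | add w w' _ _ hw hw' => rw [act_map_add, hw, hw']
  | smul c w _ hw => rw [act_map_smul, hw]

include h in
/-- The Kunneth formula from the vanishing of the complement. -/
theorem hasKunneth_of {T : CorrData C} (hT : IsCorrTheory T)
    (hp : ∀ (i : ℤ) (m : T.M (A.prod Z)), m ∈ T.gr (A.prod Z) i →
      m = ∑ j, T.act (extBy C Z (D j)) (T.act (pairBy C Z (E j)) m)) :
    HasKunneth T A Z deg D := by
  classical
  intro i m hm
  refine ⟨fun j => T.act (pairBy C Z (E j)) m, ⟨fun j => ?_, hp i m hm⟩, ?_⟩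
  · have h1 := act_pair_mem hT h j hm
    rwa [← sub_eq_add_neg] at h1
  · rintro z ⟨-, hz⟩
    funext j
    rw [hz, map_sum, Finset.sum_congr rfl fun i _ => act_pair_ext hT h i j (z i),
      Finset.sum_ite_eq', if_pos (Finset.mem_univ _)]

end dual

variable {I : Type} [Finite I] (g : I → ℕ) (E : IntermediateField ℚ ℂ) [FiniteDimensional ℚ E]
  {q : ℕ} (hq : 1 < q) (r : ℕ) (hr : ∀ i, r < g i)
  (x : (Σ i, Fin (g i)) → ℤ) (hx : GoodU (splitPrimes E) g q x)

theorem rank_one : RankLEOver E r {ρ : ℂ | aeval ρ (Polynomial.X - 1 : ℚ[X]) = 0} := by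
  refine ⟨fun _ => 1, fun _ => one_ne_zero, fun ρ hρ => ⟨1, 1, fun _ => 0, one_pos,
    one_mem E, one_ne_zero, ?_⟩⟩
  change aeval ρ (Polynomial.X - 1 : ℚ[X]) = 0 at hρ
  rw [map_sub, aeval_X, map_one, sub_eq_zero] at hρ
  rw [hρ]
  simp

include hq hr hx in
/-- **Existence of a good basis.** -/
theorem exists_good_basis (hS : IsStandard H) {s : ℕ} (hs : 0 < s) {πA : A ⟶ A}
    (hA : IsAbelian H πA q s (fun i => weil q (polys g x i))) :
    ∃ (n : ℕ) (b : Basis (Fin n) K (H.A A)) (α : Fin n → K),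
      (∀ t, H.pull πA (b t) = α t • b t) ∧ (∀ t, IsIntegral ℚ (α t)) ∧
      ∀ (χ : ℚ[X]), χ ≠ 0 → RankLEOver E r {ρ : ℂ | aeval ρ χ = 0} → ∀ ρ : K, aeval ρ χ = 0 →
        ∀ t (c : ℤ), α t * ρ = ((q ^ s : ℕ) : K) ^ c →
          ∃ l : ℕ, α t = ((q ^ s : ℕ) : K) ^ l ∧ b t ∈ NK H A l := by
  have hfin := hS.finite A
  have hq0 : q ≠ 0 := by omega
  let val : {z : K // ∃ i, aeval z (weil q (polys g x i)) = 0} → K := fun z => (z : K) ^ s
  have hU : Submodule.span K {v : H.A A | v ∈ H.gr A 1 ∧ ∃ y, H.pull πA v = val y • v} =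
      H.gr A 1 := by
    refine Eq.trans ?_ hA.eigen
    congr 1
    ext v
    constructor
    · rintro ⟨h1, ⟨z, i, hz⟩, h2⟩
      exact ⟨h1, i, z, hz, h2⟩
    · rintro ⟨h1, i, z, hz, h2⟩
      exact ⟨h1, ⟨z, i, hz⟩, h2⟩
  obtain ⟨n, b, α, hb⟩ := exists_basis (H.pull πA) val (H.gr A 1) hU hA.generated
  have hQ : ((q ^ s : ℕ) : K) = (q : K) ^ s := by push_cast; rfl
  have hQ0 : (q : K) ^ s ≠ 0 := pow_ne_zero _ (by exact_mod_cast hq0)
  refine ⟨n, b, α, fun t => (hb t).1, fun t => ?_, ?_⟩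
  · obtain ⟨-, L, -, -, hL⟩ := hb t
    rw [hL]
    clear hL
    induction L with
    | nil => simpa using isIntegral_one
    | cons a L ih =>
      rw [List.map_cons, List.prod_cons]
      refine IsIntegral.mul ?_ ih
      obtain ⟨i, hi⟩ := a.2.2
      have h1 : IsIntegral ℤ (a.2 : K) := ⟨weil q (polys g x i),
        weil_monic q (mkPoly_monic (g i) _), hi⟩
      exact (h1.tower_top (A := ℚ)).pow s
  · intro χ hχ hrank ρ hρ t c hc
    obtain ⟨-, L, hL1, hL2, hL3⟩ := hb t
    have hpair := exactPair_field_over g E hq0 r hr x hx s hs χ hχ hrank ρ hρ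
    have h1 := list_graded (H.pull πA) val ((q : K) ^ s) ρ hQ0 hpair (NK H A) one_mem_NK
      (fun a ha l b hb => by
        rw [add_comm l 1]
        exact mul_mem_NK ha hb)
      (H.gr A 1 : Set (H.A A)) (fun a ha b hb => hA.anticomm a b ha hb)
      (fun a ha b hb y y' h2 h3 h4 => by
        apply mem_NK_one
        refine hA.tate (a * b) (H.mul_mem ha hb) ?_
        change H.pull πA (a * b) = _
        rw [map_mul, h2, h3, smul_mul_smul_comm, h4, hQ])
      L.length c 1 one_pos L rfl hL1 (by rw [pow_one, pow_one, ← hL3, ← hQ]; exact hc)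
    obtain ⟨l, -, h2, h3⟩ := h1
    refine ⟨l, ?_, ?_⟩
    · rw [hL3, h2, hQ]
    · rw [hL2]
      exact h3

include hq hr hx in
/-- **The Kunneth formula.** -/
theorem kunneth_main [IsAlgClosed K] (hS : IsStandard H) {s : ℕ} (hs : 0 < s) {πA : A ⟶ A}
    {πZ : Z ⟶ Z} (hA : IsAbelian H πA q s (fun i => weil q (polys g x i)))
    (hZ : EigenRankLE E r (frob H πZ)) (hnil : Nilpotence H (A.prod Z)) :
    ∃ (J : Type) (_ : Fintype J) (deg : J → ℕ) (D E : J → C.A A), IsDual A Z deg D E ∧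
      (∀ j, D j ∈ DivProd C A (deg j)) ∧
      ∀ T : CorrData C, IsCorrTheory T → ActsAsPower T (prodMap πA πZ) (q ^ s) →
        ∀ (i : ℤ) (m : T.M (A.prod Z)), m ∈ T.gr (A.prod Z) i →
          m = ∑ j, T.act (extBy C Z (D j)) (T.act (pairBy C Z (E j)) m) := by
  obtain ⟨n, b, α, hb, hα, hgood⟩ := exists_good_basis g E hq r hr x hx hS hs hA
  have hQ1 : 1 < q ^ s := Nat.one_lt_pow hs.ne' hq
  have hX1 : (Polynomial.X - 1 : ℚ[X]) ≠ 0 := by
    have := Polynomial.X_sub_C_ne_zero (1 : ℚ)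
    rwa [map_one] at this
  have h1 : ∀ t (c : ℤ), α t = ((q ^ s : ℕ) : K) ^ c →
      ∃ l : ℕ, α t = ((q ^ s : ℕ) : K) ^ l ∧ b t ∈ NK H A l := by
    intro t c hc
    exact hgood _ hX1 (rank_one E r) 1 (by rw [map_sub, aeval_X, map_one, sub_self]) t c
      (by rw [mul_one]; exact hc)
  obtain ⟨J, hJ, deg, D, E', hdual, hD, hN⟩ := exists_dual hS hA.frobenius hQ1 b α hb h1 Z
  refine ⟨J, hJ, deg, D, E', hdual, hD, fun T hT hπ i m hm => ?_⟩
  obtain ⟨χ, hχ, hχe, hrank⟩ := hZ
  have hfinX : Module.Finite K (H.A (A.prod Z)) := hS.finite _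
  obtain ⟨P, hP, m', hPm⟩ := exists_poly (frob H (prodMap πA πZ)) (((q ^ s : ℕ) : ℚ) ^ i) (by
    intro μ v hv0 hv
    refine integral_eigen hS b α hb hα ?_ μ v hv0 hv
    intro ρ v hv0 hv
    exact (isAlgebraic_iff_isIntegral).1 ⟨χ, hχ, hχe ρ v hv0 hv⟩)
  refine kunneth_core hdual hT hπ hnil i P hP ?_ hm
  intro w
  apply act_proj_mix hdual hN
  rw [act_cl_polyC]
  refine mem_mix (πZ := πZ) hS b α hb (Q := q ^ s) (by omega) i ?_ m' _ ?_
  · intro t ρ v hv0 hv hc
    obtain ⟨l, -, hl⟩ := hgood χ hχ hrank ρ (hχe ρ v hv0 hv) t i hc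
    exact ⟨l, hl⟩
  · have h2 := hPm w
    push_cast at h2 ⊢
    exact h2

end Pool.Agent.W484.CH
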