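import Mathlib
import Pool.Agent.W484.CH.Fin

/-!
# Rational and numerical equivalence, and the theories of `K`-theory type
-/

set_option autoImplicit false
set_option linter.unusedSectionVars false

open CategoryTheory AlgebraicGeometry

universe u v w

namespace Pool.Agent.W484.CH

open Module Polynomial Pool.Agent.H914 Pool.Agent.H914.VarClass Pool.Agent.H914.VarClass.Obj
  Pool.Agent.W492.BB Pool.Agent.W550.Corr Pool.Agent.W484.TB

variable {k : Type u} [Field k] {𝒱 : VarClass k}

/-- The Chow groups, as a theory on which correspondences act. -/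
noncomputable def chowData (C : TheoryData.{u, v, 0} 𝒱 ℚ) : CorrData C where
  M := C.A
  gr := C.gr
  act := actB C

section

variable {C : TheoryData.{u, v, 0} 𝒱 ℚ} [hC : IsChow C]

theorem act_mem_chow {X Y : 𝒱.Obj} {i j : ℤ} {Γ : C.A (X.prod Y)} {m : C.A X}
    (hΓ : C.Deg (X.dim + j) Γ) (hm : m ∈ C.gr X i) : C.act Γ m ∈ C.gr Y (i + j) := by
  rw [C.act_apply]
  have h1 := C.push_mem (snd X Y) (C.mul_mem hΓ (C.pull_mem (fst X Y) hm))
  have h2 : (X.dim : ℤ) + j + i + 1 * ((Y.dim : ℤ) - (X.prod Y).dim) = i + j := by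
    rw [Obj.dim_prod]
    push_cast
    ring
  rw [h2] at h1
  exact h1

theorem chowData_isCorrTheory : IsCorrTheory (chowData C) where
  app_mem := fun hΓ hm => act_mem_chow hΓ hm
  app_comp := fun Γ Δ m => C.act_comp Γ Δ m
  app_id := fun m => act_dg C m

theorem act_frobenius {X : 𝒱.Obj} {π : X ⟶ X} {Q : ℕ} (h : IsFrobenius C π Q) (i : ℤ)
    (m : C.A X) (hm : m ∈ C.gr X i) : C.act (C.cograph π) m = (Q : ℚ) ^ i • m := by
  rw [C.act_cograph]
  rcases lt_or_ge i 0 with hi | hi
  · rw [C.gr_neg X i hi, Submodule.mem_bot] at hm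
    rw [hm, map_zero, smul_zero]
  · obtain ⟨n, rfl⟩ := Int.eq_ofNat_of_zero_le hi
    have h1 := h.chow n m hm
    change C.pull π m = _ at h1
    rw [h1, ← zpow_natCast]

theorem chowData_actsAsPower {X : 𝒱.Obj} {π : X ⟶ X} {Q : ℕ} (h : IsFrobenius C π Q) :
    ActsAsPower (chowData C) π Q := fun i m hm => act_frobenius h i m hm

variable {A Z : 𝒱.Obj} {J : Type} [Fintype J] {deg : J → ℕ} {D E : J → C.A A}

/-- The vanishing of a theory in all degrees up to `n` on the product. -/
theorem vanish_iff {T : CorrData C} (hT : IsCorrTheory T)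
    (hK : HasKunneth T A Z deg D) (n : ℤ) :
    (∀ i ≤ n, T.gr (A.prod Z) i = ⊥) ↔ ∀ i ≤ n, T.gr Z i = ⊥ := by
  constructor
  · intro hv i hi
    rw [Submodule.eq_bot_iff]
    intro z hz
    obtain ⟨a, ha, -, ha2⟩ := exists_deg_one C A
    have h1 : T.act (extBy C Z (1 : C.A A)) z ∈ T.gr (A.prod Z) (i + 0) :=
      hT.act_mem (extBy_mem (C.one_mem A)) hz
    rw [add_zero, hv i hi, Submodule.mem_bot] at h1
    have h2 : C.comp (extBy C Z (1 : C.A A)) (pairBy C Z a) = dg C Z := by
      rw [comp_extBy_pairBy C a 1 (chow_mul_comm _ _) 1 (by rw [one_mul, ha2 Z, one_smul]),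
        one_smul]
    have h3 := hT.act_comp (extBy C Z (1 : C.A A)) (pairBy C Z a) z
    rw [h1, map_zero, h2] at h3
    have h4 : T.act (dg C Z) z = z := hT.act_id z
    rw [← h4, h3]
  · intro hv i hi
    rw [Submodule.eq_bot_iff]
    intro m hm
    obtain ⟨z, ⟨hz, hmz⟩, -⟩ := hK i m hm
    rw [hmz]
    refine Finset.sum_eq_zero fun j _ => ?_
    have h1 : z j ∈ T.gr Z (i - deg j) := hz j
    rw [hv _ (by omega), Submodule.mem_bot] at h1
    change T.act (extBy C Z (D j)) (z j) = 0
    rw [h1, map_zero]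

variable {K : Type w} [Field K] [CharZero K] {H : WeilTheoryData.{u, v, w} C K} [hH : IsWeil H]

/-- Rational and homological equivalence coincide on `X`, with rational coefficients. -/
def RatEqHom (H : WeilTheoryData.{u, v, w} C K) (X : 𝒱.Obj) : Prop :=
  ∀ (i : ℕ) (z : C.A X), C.Deg i z → H.cl z = 0 → z = 0

theorem eq_zero_of_pull {z : C.A Z} (h : C.pull (snd A Z) z = 0) : z = 0 := by
  obtain ⟨a, ha, -, ha2⟩ := exists_deg_one C A
  have h1 := C.proj_right (snd A Z) (C.pull (fst A Z) a) z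
  rw [h, mul_zero, map_zero, ha2 Z, one_mul] at h1
  exact h1.symm

theorem push_snd_mem {i : ℤ} {j : ℕ} {a : C.A A} {x : C.A (A.prod Z)}
    (ha : C.Deg ((A.dim : ℤ) - j) a) (hx : C.Deg i x) :
    C.Deg (i - j) (C.push (snd A Z) (C.pull (fst A Z) a * x)) := by
  have h1 := C.push_mem (snd A Z) (C.mul_mem (C.pull_mem (fst A Z) ha) hx)
  have h2 : (A.dim : ℤ) - j + i + 1 * ((Z.dim : ℤ) - (A.prod Z).dim) = i - j := by
    rw [Obj.dim_prod]
    push_cast
    ring
  rw [h2] at h1
  exact h1

/-- The Kunneth formula for the Chow groups in terms of products. -/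
theorem chow_expand (h : IsDual A Z deg D E) (hK : HasKunneth (chowData C) A Z deg D) {i : ℤ}
    {x : C.A (A.prod Z)} (hx : C.Deg i x) :
    x = ∑ j, C.ext (D j) (C.push (snd A Z) (C.pull (fst A Z) (E j) * x)) := by
  classical
  obtain ⟨z, ⟨hz, hxz⟩, -⟩ := hK i x hx
  have h1 : ∀ j, C.push (snd A Z) (C.pull (fst A Z) (E j) * x) = z j := by
    intro j
    rw [← act_pairBy C (E j) x]
    change (chowData C).act (pairBy C Z (E j)) x = z j
    rw [hxz, map_sum, Finset.sum_congr rfl fun i _ =>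
      act_pair_ext (chowData_isCorrTheory (C := C)) h i j (z i),
      Finset.sum_ite_eq', if_pos (Finset.mem_univ _)]
  conv_lhs => rw [hxz]
  refine Finset.sum_congr rfl fun j _ => ?_
  rw [h1, ← act_extBy C (D j) (z j)]
  rfl

theorem ratEqHom_iff (h : IsDual A Z deg D E) (hK : HasKunneth (chowData C) A Z deg D) :
    RatEqHom H (A.prod Z) ↔ RatEqHom H Z := by
  constructor
  · intro hAZ i z hz hcl
    refine eq_zero_of_pull (A := A) (hAZ i _ (C.pull_mem (snd A Z) hz) ?_)
    rw [H.cl_pull, hcl, map_zero]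
  · intro hZ i x hx hcl
    rw [chow_expand h hK hx]
    refine Finset.sum_eq_zero fun j _ => ?_
    have h1 := push_snd_mem (h.right j) hx
    have h2 : C.push (snd A Z) (C.pull (fst A Z) (E j) * x) = 0 := by
      rcases lt_or_ge ((i : ℤ) - deg j) 0 with hi | hi
      · rw [TheoryData.Deg, C.gr_neg Z _ hi, Submodule.mem_bot] at h1
        exact h1
      · obtain ⟨n, hn⟩ := Int.eq_ofNat_of_zero_le hi
        rw [hn] at h1
        refine hZ n _ h1 ?_
        rw [H.cl_push, map_mul, hcl, mul_zero, map_zero]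
    rw [h2, C.ext_zero_right]

theorem ratEqNum_iff (h : IsDual A Z deg D E) (hK : HasKunneth (chowData C) A Z deg D) :
    RatEqNum H (A.prod Z) ↔ RatEqNum H Z := by
  constructor
  · intro hAZ i z hz hnum
    refine eq_zero_of_pull (A := A) (hAZ i _ (C.pull_mem (snd A Z) hz) ?_)
    intro j w hij hw
    change H.tr _ (H.cl (C.pull (snd A Z) z * w)) = 0
    rw [← H.tr_push (snd A Z), ← H.cl_push, C.proj_left]
    have h1 := C.push_mem (snd A Z) hw
    have h2 : (j : ℤ) + 1 * ((Z.dim : ℤ) - (A.prod Z).dim) = j - A.dim := by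
      rw [Obj.dim_prod]
      push_cast
      ring
    rw [h2] at h1
    rcases lt_or_ge ((j : ℤ) - A.dim) 0 with hi | hi
    · rw [C.gr_neg Z _ hi, Submodule.mem_bot] at h1
      rw [h1, mul_zero, map_zero, map_zero]
    · obtain ⟨n, hn⟩ := Int.eq_ofNat_of_zero_le hi
      rw [hn] at h1
      refine hnum n _ ?_ h1
      rw [Obj.dim_prod] at hij
      omega
  · intro hZ i x hx hnum
    rw [chow_expand h hK hx]
    refine Finset.sum_eq_zero fun j _ => ?_
    have h1 := push_snd_mem (h.right j) hx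
    have h2 : C.push (snd A Z) (C.pull (fst A Z) (E j) * x) = 0 := by
      rcases lt_or_ge ((i : ℤ) - deg j) 0 with hi | hi
      · rw [TheoryData.Deg, C.gr_neg Z _ hi, Submodule.mem_bot] at h1
        exact h1
      · obtain ⟨n, hn⟩ := Int.eq_ofNat_of_zero_le hi
        rw [hn] at h1
        refine hZ n _ h1 ?_
        intro l w hl hw
        change H.tr Z (H.cl (C.push (snd A Z) (C.pull (fst A Z) (E j) * x) * w)) = 0
        rw [← C.proj_right, H.cl_push, H.tr_push]
        have h3 : C.Deg ((A.dim : ℤ) - deg j + l) (C.pull (fst A Z) (E j) * C.pull (snd A Z) w) :=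
          C.mul_mem (C.pull_mem _ (h.right j)) (C.pull_mem _ hw)
        have h4 : C.pull (fst A Z) (E j) * x * C.pull (snd A Z) w =
            x * (C.pull (fst A Z) (E j) * C.pull (snd A Z) w) := by
          rw [chow_mul_comm (C.pull (fst A Z) (E j)) x, mul_assoc]
        rw [h4]
        have h5 := h.le j
        have h6 : (A.dim : ℤ) - deg j + l = ((A.dim - deg j + l : ℕ) : ℤ) := by
          omega
        rw [h6] at h3
        refine hnum _ _ ?_ h3
        rw [Obj.dim_prod]
        omega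
    rw [h2, C.ext_zero_right]

end

end Pool.Agent.W484.CH
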